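import Pool.Graph.R_seed8.Y361.EL.Wk
import Pool.Graph.R_seed8.Y262.EL.All

/-!
# Smooth eigenfunctions are weak eigenfunctions
-/

set_option autoImplicit false
set_option linter.unusedSectionVars false

open Set Filter Topology MeasureTheory
open scoped ContDiff ComplexConjugate Real NNReal ENNReal

noncomputable section

namespace Pool.Agent.H240.SG

open Pool.Agent.Y262.EG Pool.Agent.Y262.EX Pool.Agent.Y262.EL Pool.Agent.Y361.EL.Wk

theorem ibpc1 {O : Set ℂ} (hO : IsOpen O) {V w : ℂ → ℝ} (hV : ContDiffOn ℝ ∞ V O)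
    (hw : ContDiff ℝ 1 w) (hc : HasCompactSupport w) (hs : tsupport w ⊆ O) (e : ℂ) :
    Integrable (fun z => fderiv ℝ V z e * fderiv ℝ w z e) ∧
    Integrable (fun z => fderiv ℝ (fun z => fderiv ℝ V z e) z e * w z) ∧
    ∫ z, fderiv ℝ V z e * fderiv ℝ w z e =
      -∫ z, fderiv ℝ (fun z => fderiv ℝ V z e) z e * w z := by
  have v1 : ContDiffOn ℝ ∞ (fun z => fderiv ℝ V z e) O :=
    (hV.fderiv_of_isOpen hO (m := ∞) le_rfl).clm_apply contDiffOn_const
  have v2 : ContDiffOn ℝ ∞ (fun z => fderiv ℝ (fun z => fderiv ℝ V z e) z e) O :=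
    (v1.fderiv_of_isOpen hO (m := ∞) le_rfl).clm_apply contDiffOn_const
  have w1 : Continuous (fun z => fderiv ℝ w z e) :=
    (hw.continuous_fderiv one_ne_zero).clm_apply continuous_const
  have c1 : HasCompactSupport (fun z => fderiv ℝ w z e) := hc.fderiv_apply (𝕜 := ℝ) e
  have s1 : tsupport (fun z => fderiv ℝ w z e) ⊆ O :=
    (tsupport_fderiv_apply_subset ℝ e).trans hs
  have i1 := (int_mul hO v1.continuousOn w1 c1 s1).2
  have i2 := (int_mul hO v2.continuousOn hw.continuous hc hs).2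
  have i3 := (int_mul hO v1.continuousOn hw.continuous hc hs).2
  refine ⟨i1, i2, ?_⟩
  exact integral_mul_fderiv_eq_neg_fderiv_mul_of_integrable i2 i1 i3
    (fun z hz => (v1.contDiffAt (hO.mem_nhds (hs hz))).differentiableAt (by simp))
    (fun z _ => hw.differentiable one_ne_zero z)

theorem ibpc {O : Set ℂ} (hO : IsOpen O) {V w : ℂ → ℝ} (hV : ContDiffOn ℝ ∞ V O)
    (hw : ContDiff ℝ 1 w) (hc : HasCompactSupport w) (hs : tsupport w ⊆ O) :
    ∫ z, (px V z * px w z + py V z * py w z) = -∫ z, lap V z * w z := by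
  obtain ⟨a1, b1, e1⟩ := ibpc1 hO hV hw hc hs 1
  obtain ⟨a2, b2, e2⟩ := ibpc1 hO hV hw hc hs Complex.I
  have h1 : ∫ z, (px V z * px w z + py V z * py w z) =
      (∫ z, fderiv ℝ V z 1 * fderiv ℝ w z 1) +
        ∫ z, fderiv ℝ V z Complex.I * fderiv ℝ w z Complex.I := integral_add a1 a2
  have h2 : ∫ z, lap V z * w z =
      (∫ z, fderiv ℝ (fun z => fderiv ℝ V z 1) z 1 * w z) +
        ∫ z, fderiv ℝ (fun z => fderiv ℝ V z Complex.I) z Complex.I * w z := by
    rw [← integral_add b1 b2]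
    congr 1
    funext z
    rw [← add_mul]
    rfl
  rw [h1, h2, e1, e2]
  ring

section

variable {M P : Type} [MetricSpace M] [CompactSpace M] [MetricSpace P] [CompactSpace P]
  {Ω : Set ℂ} {φ : ℂ → ℝ} {pr : ℂ → M} {q : Y → P}

/-- bump functions on the surface -/
theorem bumps (hUT : IsUT Ω φ pr q) : ∃ (ι : Type) (_ : Fintype ι) (B : ι → Set ℂ)
    (b : ι → ℂ → ℝ), (∀ i, IsOpen (B i) ∧ B i ⊆ Ω ∧ InjOn pr (B i)) ∧
    (∀ i, ContDiff ℝ ∞ (b i) ∧ HasCompactSupport (b i) ∧ tsupport (b i) ⊆ B i ∧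
      ∀ z, 0 ≤ b i z) ∧ ∀ x : M, ∃ i, 0 < Gf (B i) pr (b i) x := by
  choose! r hr hrs hri using hUT.injp
  have hcov : (univ : Set M) ⊆ ⋃ z : Ω, pr '' Metric.ball z.1 (r z.1 / 4) := by
    intro x _
    have hx : x ∈ pr '' Ω := by rw [hUT.surjp]; trivial
    obtain ⟨z, hz, rfl⟩ := hx
    exact mem_iUnion.2 ⟨⟨z, hz⟩, z, Metric.mem_ball_self (by linarith [hr z hz]), rfl⟩
  obtain ⟨t, ht⟩ := isCompact_univ.elim_finite_subcover
    (fun z : Ω => pr '' Metric.ball z.1 (r z.1 / 4))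
    (fun z => hUT.opnp _ Metric.isOpen_ball
      ((Metric.ball_subset_ball (by linarith [hr z.1 z.2])).trans (hrs z.1 z.2))) hcov
  let f : ∀ z : Ω, ContDiffBump z.1 := fun z =>
    { rIn := r z.1 / 4, rOut := r z.1 / 2, rIn_pos := by linarith [hr z.1 z.2],
      rIn_lt_rOut := by linarith [hr z.1 z.2] }
  refine ⟨t, inferInstance, fun z => Metric.ball z.1.1 (r z.1.1), fun z => f z.1,
    fun z => ⟨Metric.isOpen_ball, hrs _ z.1.2, hri _ z.1.2⟩,
    fun z => ⟨(f z.1).contDiff, (f z.1).hasCompactSupport, ?_, fun y => (f z.1).nonneg⟩, ?_⟩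
  · rw [(f z.1).tsupport_eq]
    exact Metric.closedBall_subset_ball (by
      show r z.1.1 / 2 < r z.1.1
      linarith [hr z.1.1 z.1.2])
  · intro x
    have hx := ht (mem_univ x)
    simp only [mem_iUnion] at hx
    obtain ⟨z, hz, y, hy, rfl⟩ := hx
    refine ⟨⟨z, hz⟩, ?_⟩
    have hy' : y ∈ Metric.ball z.1 (r z.1) :=
      Metric.ball_subset_ball (by linarith [hr z.1 z.2]) hy
    rw [Gf_apply (hri _ z.2) hy']
    have : (f z) y = 1 := (f z).one_of_mem_closedBall (Metric.ball_subset_closedBall hy)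
    show 0 < (f z) y
    rw [this]
    exact one_pos

theorem Gf_nonneg {B : Set ℂ} {v : ℂ → ℝ} (hv : ∀ z, 0 ≤ v z) (x : M) : 0 ≤ Gf B pr v x := by
  unfold Gf
  split_ifs with h
  · exact hv _
  · exact le_rfl

variable [MeasurableSpace M] [BorelSpace M] {D : Pool.Agent.Y262.QE.Data M} {μ : Measure M}

theorem loc_green (hUT : IsUT Ω φ pr q) (hS : D.IsSurf μ) (hC : Compat D Ω φ pr)
    (hA : IsArea Ω φ pr μ) {v : M → ℝ} (hv : ContDiffOn ℝ ∞ (fun z => v (pr z)) Ω) {lam : ℝ}
    (hE : ∀ z ∈ Ω, -(Real.exp (-2 * φ z) * lap (fun z => v (pr z)) z) = lam * v (pr z))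
    {B : Set ℂ} (hBo : IsOpen B) (hBΩ : B ⊆ Ω) (hinj : InjOn pr B) {G : M → ℝ} (hG : D.C1 G)
    {w : ℂ → ℝ} (hw : ContDiff ℝ 1 w) (hc : HasCompactSupport w) (hs : tsupport w ⊆ B)
    (hGw : ∀ z ∈ B, G (pr z) = w z) (hG0 : ∀ x, x ∉ pr '' tsupport w → G x = 0) :
    ∫ x, inner ℝ (D.gr v x) (D.gr G x) ∂μ = lam * ∫ x, v x * G x ∂μ := by
  have hBm : MeasurableSet B := hBo.measurableSet
  have hφ : ContinuousOn φ Ω := hUT.smooth.continuousOn
  have hv1 : D.C1 v := (Pool.Agent.Y585.EL.c1T M P Ω φ pr q D μ hUT hS hC v).2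
    (hv.of_le (by simp))
  classical
  have hGr := (Pool.Agent.Y708.QE.gradient M μ D hS).1
  have hp : Measurable (B.piecewise pr (fun _ => pr 0)) :=
    ContinuousOn.measurable_piecewise (hUT.contp.mono hBΩ) continuousOn_const hBm
  have hψ : Measurable (B.piecewise φ (fun _ => 0)) :=
    ContinuousOn.measurable_piecewise (hφ.mono hBΩ) continuousOn_const hBm
  have hpB : ∀ z ∈ B, B.piecewise pr (fun _ => pr 0) z = pr z := fun z hz =>
    piecewise_eq_of_mem _ _ _ hz
  have hψB : ∀ z ∈ B, B.piecewise φ (fun _ => 0) z = φ z := fun z hz =>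
    piecewise_eq_of_mem _ _ _ hz
  obtain ⟨cv, hfin, -, -⟩ := tCVM M P Ω φ pr q μ hUT hA
  obtain ⟨hmeas, hlin, -⟩ := cv B hBm hBΩ hinj
  have hmp := mpres hBm hlin hp hpB hψB
  have IF := int_formula hBm hψ hpB hψB hmp
  have hgrad := tGrad M P Ω φ pr q D μ hUT hS hC v G hv1 hG
  have hmeasg : AEStronglyMeasurable (fun x => inner ℝ (D.gr v x) (D.gr G x)) μ :=
    ((hGr v hv1).2.1.inner (hGr _ hG).2.1).aestronglyMeasurable
  have hK : IsClosed (pr '' (tsupport w)) :=
    (hc.isCompact.image_of_continuousOn (hUT.contp.mono (hs.trans hBΩ))).isClosed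
  have e0 : ∀ x, x ∉ pr '' B → inner ℝ (D.gr v x) (D.gr G x) = 0 := by
    intro x hx
    obtain ⟨z, hz, rfl⟩ : x ∈ pr '' Ω := by rw [hUT.surjp]; trivial
    rw [hgrad z hz]
    have h5 : (fun ζ => G (pr ζ)) =ᶠ[𝓝 z] fun _ => 0 := by
      have h2 : ∀ᶠ ζ in 𝓝 z, pr ζ ∈ (pr '' (tsupport w))ᶜ :=
        (hUT.contp.continuousAt (hUT.opn.mem_nhds hz)).eventually
          (hK.isOpen_compl.mem_nhds fun h' => hx (image_mono hs h'))
      filter_upwards [h2] with ζ hζ
      exact hG0 _ hζ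
    have h6 : fderiv ℝ (fun ζ => G (pr ζ)) z = 0 := by
      rw [h5.fderiv_eq]; simp
    simp [px, py, h6]
  have hgB : ∀ z ∈ B, (fun ζ => G (pr ζ)) =ᶠ[𝓝 z] w := by
    intro z hz
    filter_upwards [hBo.mem_nhds hz] with ζ hζ
    exact hGw ζ hζ
  have z0w : ∀ z, z ∉ B → w z = 0 := fun z hz =>
    image_eq_zero_of_notMem_tsupport fun h => hz (hs h)
  have z1w : ∀ e z, z ∉ B → fderiv ℝ w z e = 0 := fun e z hz =>
    image_eq_zero_of_notMem_tsupport (f := fun z => fderiv ℝ w z e) fun h => hz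
      (((tsupport_fderiv_apply_subset ℝ e).trans hs) h)
  have hvc : Continuous v := (hGr v hv1).1
  have hGc : Continuous G := (hGr G hG).1
  rw [← setIntegral_eq_integral_of_forall_compl_eq_zero e0, IF _ hmeasg]
  have e1 : ∫ z in B, inner ℝ (D.gr v (pr z)) (D.gr G (pr z)) * Real.exp (2 * φ z) =
      ∫ z in B, (px (fun z => v (pr z)) z * px w z + py (fun z => v (pr z)) z * py w z) := by
    apply setIntegral_congr_fun hBm
    intro z hz
    simp only
    rw [hgrad z (hBΩ hz)]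
    have h6 : fderiv ℝ (fun ζ => G (pr ζ)) z = fderiv ℝ w z := (hgB z hz).fderiv_eq
    have h7 : Real.exp (-2 * φ z) * Real.exp (2 * φ z) = 1 := by
      rw [← Real.exp_add]; simp
    have h8 : px (fun ζ => G (pr ζ)) z = px w z := by simp only [px, h6]
    have h9 : py (fun ζ => G (pr ζ)) z = py w z := by simp only [py, h6]
    rw [h8, h9, mul_right_comm, h7, one_mul]
  rw [e1, setIntegral_eq_integral_of_forall_compl_eq_zero, ibpc hUT.opn hv hw hc (hs.trans hBΩ)]
  · have e3 : ∀ x, x ∉ pr '' B → v x * G x = 0 := by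
      intro x hx
      rw [hG0 x (fun h => hx (image_mono hs h)), mul_zero]
    rw [← setIntegral_eq_integral_of_forall_compl_eq_zero e3,
      IF (fun x => v x * G x) (hvc.mul hGc).aestronglyMeasurable]
    rw [← integral_const_mul, ← integral_neg, ← setIntegral_eq_integral_of_forall_compl_eq_zero
      (s := B) (f := fun z => -(lap (fun z => v (pr z)) z * w z))]
    · apply setIntegral_congr_fun hBm
      intro z hz
      simp only
      rw [hGw z hz]
      have h7 : Real.exp (-2 * φ z) * Real.exp (2 * φ z) = 1 := by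
        rw [← Real.exp_add]; simp
      have h8 := hE z (hBΩ hz)
      have h9 : lam * (v (pr z) * w z * Real.exp (2 * φ z)) =
          (lam * v (pr z)) * (w z * Real.exp (2 * φ z)) := by ring
      rw [h9, ← h8]
      have h10 : -(Real.exp (-2 * φ z) * lap (fun z => v (pr z)) z) * (w z * Real.exp (2 * φ z)) =
        -(lap (fun z => v (pr z)) z * w z) * (Real.exp (-2 * φ z) * Real.exp (2 * φ z)) := by ring
      rw [h10, h7, mul_one]
    · intro z hz
      rw [z0w z hz, mul_zero, neg_zero]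
  · intro z hz
    simp only [px, py]
    rw [z1w 1 z hz, z1w Complex.I z hz, mul_zero, mul_zero, add_zero]

/-- smooth eigenfunctions are weak eigenfunctions -/
theorem green (hUT : IsUT Ω φ pr q) (hS : D.IsSurf μ) (hC : Compat D Ω φ pr)
    (hA : IsArea Ω φ pr μ) {v : M → ℝ} (hv : ContDiffOn ℝ ∞ (fun z => v (pr z)) Ω) {lam : ℝ}
    (hE : ∀ z ∈ Ω, -(Real.exp (-2 * φ z) * lap (fun z => v (pr z)) z) = lam * v (pr z)) :
    D.IsEig μ lam v := by
  have hC1 := Pool.Agent.Y585.EL.c1T M P Ω φ pr q D μ hUT hS hC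
  have hv1 : D.C1 v := (hC1 v).2 (hv.of_le (by simp))
  have hGr := (Pool.Agent.Y708.QE.gradient M μ D hS).1
  have hGl := (Pool.Agent.Y708.QE.gradient M μ D hS).2.2
  obtain ⟨-, hfin, -, -⟩ := tCVM M P Ω φ pr q μ hUT hA
  obtain ⟨ι, _, B, b, hB, hb, hpos⟩ := bumps hUT
  have hb1 : ∀ i, D.C1 (Gf (B i) pr (b i)) := fun i => (hC1 _).2
    (Gf_smooth hUT (hB i).1 (hB i).2.1 (hB i).2.2 (hb i).1 (hb i).2.1 (hb i).2.2.1)
  have hSp : ∀ x, 0 < ∑ i, Gf (B i) pr (b i) x := by
    intro x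
    obtain ⟨i, hi⟩ := hpos x
    exact Finset.sum_pos' (fun j _ => Gf_nonneg (hb j).2.2.2 x) ⟨i, Finset.mem_univ i, hi⟩
  have hSs : ContDiffOn ℝ 1 (fun z => ∑ i, Gf (B i) pr (b i) (pr z)) Ω :=
    ContDiffOn.sum fun i _ => (hC1 _).1 (hb1 i)
  have key : ∀ G : M → ℝ, D.C1 G →
      ∫ x, inner ℝ (D.gr v x) (D.gr G x) ∂μ = lam * ∫ x, v x * G x ∂μ := by
    intro G hG
    have hGs : ContDiffOn ℝ 1 (fun z => G (pr z)) Ω := (hC1 G).1 hG
    set Gi : ι → M → ℝ := fun i x => Gf (B i) pr (b i) x * (G x / ∑ j, Gf (B j) pr (b j) x) with hGi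
    have hGi1 : ∀ i, D.C1 (Gi i) := fun i => (hC1 _).2
      (((hC1 _).1 (hb1 i)).mul (hGs.div hSs fun z _ => (hSp (pr z)).ne'))
    have hloc : ∀ i, ∫ x, inner ℝ (D.gr v x) (D.gr (Gi i) x) ∂μ = lam * ∫ x, v x * Gi i x ∂μ := by
      intro i
      set w : ℂ → ℝ := fun z => b i z * (G (pr z) / ∑ j, Gf (B j) pr (b j) (pr z)) with hw
      have hts : tsupport w ⊆ tsupport (b i) := tsupport_mul_subset_left
      have hwc : HasCompactSupport w := (hb i).2.1.mul_right
      have hw1 : ContDiff ℝ 1 w := by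
        rw [contDiff_iff_contDiffAt]
        intro z
        by_cases hz : z ∈ Ω
        · have h1 : ContDiffAt ℝ 1 (fun z => G (pr z) / ∑ j, Gf (B j) pr (b j) (pr z)) z :=
            (hGs.div hSs fun z _ => (hSp (pr z)).ne').contDiffAt (hUT.opn.mem_nhds hz)
          exact (((hb i).1.of_le (by simp)).contDiffAt).mul h1
        · have h2 : z ∉ tsupport w := fun h => hz ((hB i).2.1 ((hb i).2.2.1 (hts h)))
          rw [notMem_tsupport_iff_eventuallyEq] at h2
          exact contDiffAt_const.congr_of_eventuallyEq h2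
      refine loc_green hUT hS hC hA hv hE (hB i).1 (hB i).2.1 (hB i).2.2 (hGi1 i) hw1 hwc
        (hts.trans (hb i).2.2.1) ?_ ?_
      · intro z hz
        simp only [hGi, hw]
        rw [Gf_apply (hB i).2.2 hz]
      · intro x hx
        obtain ⟨z, hz, rfl⟩ : x ∈ pr '' Ω := by rw [hUT.surjp]; trivial
        by_cases h : pr z ∈ pr '' B i
        · obtain ⟨y, hy, hyz⟩ := h
          have h3 : w y = 0 := image_eq_zero_of_notMem_tsupport fun h' => hx ⟨y, h', hyz⟩
          rw [← hyz]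
          simp only [hGi]
          rw [Gf_apply (hB i).2.2 hy]
          exact h3
        · simp only [hGi]
          rw [Gf_zero fun h' => h (image_mono (hb i).2.2.1 h'), zero_mul]
    have hsum : ∀ x, G x = ∑ i, Gi i x := by
      intro x
      simp only [hGi]
      rw [← Finset.sum_mul, mul_div_cancel₀ _ (hSp x).ne']
    have hgrs : ∀ x, D.gr G x = ∑ i, D.gr (Gi i) x := by
      have h1 : ∀ s : Finset ι, D.C1 (fun x => ∑ i ∈ s, Gi i x) ∧
          ∀ x, D.gr (fun x => ∑ i ∈ s, Gi i x) x = ∑ i ∈ s, D.gr (Gi i) x := by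
        classical
        intro s
        induction s using Finset.induction_on with
        | empty =>
          have h2 := hGl v v hv1 hv1 0 0
          simp only [zero_mul, add_zero, zero_smul] at h2
          simpa using h2
        | insert i s hi ih =>
          have h2 := hGl (Gi i) _ (hGi1 i) ih.1 1 1
          simp only [one_mul, one_smul] at h2
          simp only [Finset.sum_insert hi]
          refine ⟨h2.1, fun x => ?_⟩
          rw [h2.2 x, ih.2 x]
      intro x
      have h2 : G = fun x => ∑ i, Gi i x := funext hsum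
      conv_lhs => rw [h2]
      exact (h1 Finset.univ).2 x
    have hvc : Continuous v := (hGr v hv1).1
    have e1 : ∫ x, inner ℝ (D.gr v x) (D.gr G x) ∂μ =
        ∑ i, ∫ x, inner ℝ (D.gr v x) (D.gr (Gi i) x) ∂μ := by
      rw [← integral_finset_sum]
      · refine integral_congr_ae (Filter.Eventually.of_forall fun x => ?_)
        simp only
        rw [hgrs x, inner_sum]
      · intro i _
        obtain ⟨-, m1, C1, hC1'⟩ := hGr v hv1
        obtain ⟨-, m2, C2, hC2'⟩ := hGr (Gi i) (hGi1 i)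
        refine Integrable.of_bound (m1.inner m2).aestronglyMeasurable (C1 * C2)
          (Filter.Eventually.of_forall fun x => ?_)
        have h1 := norm_inner_le_norm (𝕜 := ℝ) (D.gr v x) (D.gr (Gi i) x)
        have h2 := norm_nonneg (D.gr v x)
        have h3 := norm_nonneg (D.gr (Gi i) x)
        have h4 := hC1' x
        have h5 := hC2' x
        exact h1.trans (mul_le_mul h4 h5 h3 (h2.trans h4))
    have e2 : ∫ x, v x * G x ∂μ = ∑ i, ∫ x, v x * Gi i x ∂μ := by
      rw [← integral_finset_sum]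
      · refine integral_congr_ae (Filter.Eventually.of_forall fun x => ?_)
        simp only
        rw [hsum x, Finset.mul_sum]
      · intro i _
        exact (hvc.mul (hGr _ (hGi1 i)).1).integrable_of_hasCompactSupport
          (HasCompactSupport.of_compactSpace _)
    rw [e1, e2, Finset.mul_sum]
    exact Finset.sum_congr rfl fun i _ => hloc i
  have hvc : Continuous v := (hGr v hv1).1
  refine ⟨hvc.memLp_of_hasCompactSupport (HasCompactSupport.of_compactSpace _), fun _ => v,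
    fun _ => hv1, ?_, ?_, ?_⟩
  · simp
  · simp
  · intro G hG
    rw [← key G hG]
    exact tendsto_const_nhds

end

end Pool.Agent.H240.SG
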