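import Pool.Agent.H240.SG.Base2
import Pool.Agent.H240.SG.Green
import Pool.Agent.H240.QX.Final

/-!
# Complete localization in a flat cylinder
-/

set_option autoImplicit false
set_option linter.unusedSectionVars false

open Set Filter Topology MeasureTheory
open scoped ContDiff ComplexConjugate Real

noncomputable section

namespace Pool.Agent.H240.SG

open Pool.Agent.Y262.EG Pool.Agent.Y262.EX Pool.Agent.Y262.EL Pool.Agent.Y262.QE
open Pool.Agent.Y264.QR Pool.Agent.H240.SC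

/-- the closed flat cylinder -/
def Zc {M : Type} (pr : ℂ → M) (L : ℝ) : Set M := pr '' {z | 0 ≤ z.re ∧ z.re ≤ L}

/-- an ordered orthonormal basis of smooth eigenfunctions -/
structure EB {M : Type} [MeasurableSpace M] (Ω : Set ℂ) (φ : ℂ → ℝ) (pr : ℂ → M) (μ : Measure M)
    (u : ℕ → M → ℝ) (lam : ℕ → ℝ) : Prop where
  eig : ∀ j, IsEf Ω φ pr (lam j) (u j)
  mono : Monotone lam
  orth : ∀ i j, ∫ x, u i x * u j x ∂μ = if i = j then 1 else 0
  total : ∀ f : M → ℝ, MemLp f 2 μ → (∀ j, ∫ x, f x * u j x ∂μ = 0) → f =ᵐ[μ] 0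

section

variable {M P : Type} [MetricSpace M] [CompactSpace M] [MetricSpace P] [CompactSpace P]
  [MeasurableSpace M] [BorelSpace M] {Ω : Set ℂ} {φ φ' : ℂ → ℝ} {pr : ℂ → M} {q : Y → P}
  {μ : Measure M} {D : Data M}

theorem area_congr (h : IsArea Ω φ pr μ) (he : ∀ z ∈ Ω, φ' z = φ z) : IsArea Ω φ' pr μ := by
  intro B hB hBs hi
  rw [h B hB hBs hi]
  refine setLIntegral_congr_fun hB fun z hz => ?_
  rw [he z (hBs hz)]

theorem cmp_congr (h : Compat D Ω φ pr) (he : ∀ z ∈ Ω, φ' z = φ z) : Compat D Ω φ' pr := by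
  intro i
  obtain ⟨b, hb, hb'⟩ := h i
  refine ⟨b, hb, fun z hz => ?_⟩
  obtain ⟨b1, b2, b3, b4⟩ := hb' z hz
  refine ⟨b1, b2, b3, fun v => ?_⟩
  rw [b4 v, he _ b1]

/-- a weak basis gives a smooth basis -/
theorem eb_ex (hUT : IsUT Ω φ pr q) (hS : D.IsSurf μ) (hC : Compat D Ω φ pr)
    (hA : IsArea Ω φ pr μ) {u : ℕ → M → ℝ} {lam : ℕ → ℝ} (hu : EigBasis D μ u lam) :
    ∃ v : ℕ → M → ℝ, EB Ω φ pr μ v lam := by
  have hv : ∀ j, ∃ v : M → ℝ, (∀ᵐ x ∂μ, u j x = v x) ∧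
      ContDiffOn ℝ ∞ (fun z => v (pr z)) Ω ∧ ∀ z ∈ Ω,
        -(Real.exp (-2 * φ z) * lap (fun z => v (pr z)) z) = lam j * v (pr z) := fun j =>
    tEll M P Ω _ pr q _ μ hUT hS hC hA (lam j) (u j) (hu.eig j)
  choose v hv1 hv2 hv3 using hv
  refine ⟨v, fun j => ⟨hv2 j, hv3 j⟩, hu.mono, ?_, ?_⟩
  · intro k l
    rw [← hu.orth k l]
    refine integral_congr_ae ?_
    filter_upwards [hv1 k, hv1 l] with x hx hx'
    rw [hx, hx']
  · intro f hf hfv
    refine hu.total f hf fun j => ?_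
    rw [← hfv j]
    refine integral_congr_ae ?_
    filter_upwards [hv1 j] with x hx
    rw [hx]

/-- a smooth basis is a weak basis -/
theorem eb_weak (hUT : IsUT Ω φ pr q) (hS : D.IsSurf μ) (hC : Compat D Ω φ pr)
    (hA : IsArea Ω φ pr μ) {u : ℕ → M → ℝ} {lam : ℕ → ℝ} (hu : EB Ω φ pr μ u lam) :
    EigBasis D μ u lam :=
  ⟨fun j => green hUT hS hC hA (hu.eig j).1 (hu.eig j).2, hu.mono, hu.orth, hu.total⟩

end

section

variable {M P : Type} [MetricSpace M] [CompactSpace M] [MetricSpace P] [CompactSpace P]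
  [MeasurableSpace M] [BorelSpace M] {pr : ℂ → M} {q : Y → P} {μ : Measure M} {D : Data M}
  {g X : ℝ → ℝ} {c1 C : ℝ} {κ h : C(M, ℝ)} {Φ : ℂ → M} {σ : M → M}

/-- the weight -/
def wt (κ h : C(M, ℝ)) (s : ℝ) (x : M) : ℝ := Real.exp ((κ + s • h) x)

theorem fam_data (hP : Prof g c1 C) (hX : Cut X) (hpr : PrM Om ac pr) (hq : PrP Om ac q)
    (hB : Bs g X c1 pr κ h μ D Φ σ) (s : ℝ) :
    (D.conf (wt κ h s)).IsSurf (wm μ (wt κ h s)) ∧
      Compat (D.conf (wt κ h s)) Om (phs g X c1 s) pr ∧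
      IsArea Om (phs g X c1 s) pr (wm μ (wt κ h s)) := by
  have hA : Act Gq Om ac := tAct
  have hUT : IsUT Om (ph0 g X c1) pr q :=
    Pool.Agent.Y145.EX.qU Gq Om ac (ph0 g X c1) M P pr q hA (ph0_inva hP hX) hpr hq
  set f : C(M, ℝ) := κ + s • h with hf
  have hfv : ∀ z ∈ Om, f (pr z) = 2 * Hf (et g X 0) 0 z + s * Hf (et g X 1) 1 z := by
    intro z hz
    rw [← hB.hpr z hz, ← hB.κpr z hz]
    rfl
  have hfs : ContDiffOn ℝ ∞ (fun z => f (pr z)) Om := by
    have h1 : ContDiffOn ℝ ∞ (fun z => 2 * Hf (et g X 0) 0 z + s * Hf (et g X 1) 1 z) Om :=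
      (contDiffOn_const.mul (hfP hP hX 0).sm).add (contDiffOn_const.mul (hfP hP hX 1).sm)
    exact h1.congr fun z hz => hfv z hz
  have he : ∀ z ∈ Om, phs g X c1 s z = ph0 g X c1 z + 1 / 2 * f (pr z) := by
    intro z hz
    rw [phs_eq, hfv z hz]
    unfold ph0
    ring
  have hw : (fun x => Real.exp (1 * f x)) = wt κ h s := by
    funext x
    rw [one_mul]
    rfl
  refine ⟨?_, ?_, ?_⟩
  · exact (tConf M μ D hB.surf (wt κ h s)
      (Real.continuous_exp.comp (κ + s • h).continuous) (fun x => Real.exp_pos _)).1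
  · have h1 := (tUTs M P Om (ph0 g X c1) pr q hUT f hfs 1).2 D hB.cmp
    rw [hw] at h1
    exact cmp_congr h1 he
  · have h1 := (tCVM M P Om (ph0 g X c1) pr q μ hUT hB.area).2.2.2 f f.continuous hfs 1
    rw [hw] at h1
    exact area_congr h1 he

/-- the zero set of the function -/
theorem h_zero (hP : Prof g c1 C) (hX : Cut X) (hpr : PrM Om ac pr) (hsub : Stp L0 (3 / 2 * L0) ⊆ Om)
    (hB : Bs g X c1 pr κ h μ D Φ σ) (x : M) : h x = 0 ↔ x ∈ Zc pr L0 := by
  have h0 := L0p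
  obtain ⟨z, hz, rfl⟩ : x ∈ pr '' Om := by rw [hpr.surj]; trivial
  constructor
  · intro hx
    by_contra hcon
    have h1 : 0 < Hf (et g X 1) 1 z := (Hf_pos hP hX hz).2 fun γ hγ => hcon
      ⟨ac γ z, hγ, ((hpr.rel z hz _ (tAct.maps γ z hz)).2 ⟨γ, rfl⟩).symm⟩
    rw [hB.hpr z hz] at hx
    linarith
  · rintro ⟨w, hw, hwz⟩
    have hw1 : w ∈ Stp L0 (3 / 2 * L0) := ⟨by linarith [hw.1], by linarith [hw.2]⟩
    rw [← hwz, hB.hpr w (hsub hw1), (hfP hP hX 1).strip w hw1, et_near hX, hP.flat _ hw.1 hw.2]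
    rw [abs_le]
    constructor <;> linarith [hw.1, hw.2]

/-- the mass on compact sets outside the cylinder tends to zero -/
theorem mass_zero {ν : Measure M} [IsFiniteMeasure ν] (hn : ∀ x, 0 ≤ h x) {u : ℕ → M → ℝ}
    (hu : ∀ j, Integrable (fun x => (u j x) ^ 2) ν) {l : Filter ℕ}
    (ht : Tendsto (fun j => ∫ x, h x * (u j x) ^ 2 ∂ν) l (𝓝 0)) {K : Set M} (hK : IsCompact K)
    (hKh : ∀ x ∈ K, h x ≠ 0) : Tendsto (fun j => ∫ x in K, (u j x) ^ 2 ∂ν) l (𝓝 0) := by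
  rcases K.eq_empty_or_nonempty with rfl | hne
  · simp only [Measure.restrict_empty, integral_zero_measure]
    exact tendsto_const_nhds
  obtain ⟨x0, hx0, hmin⟩ := hK.exists_isMinOn hne h.continuous.continuousOn
  have hc : 0 < h x0 := lt_of_le_of_ne (hn x0) (hKh x0 hx0).symm
  have hI : ∀ j, Integrable (fun x => h x * (u j x) ^ 2) ν := fun j => by
    obtain ⟨C, hC⟩ := isCompact_univ.exists_bound_of_continuousOn h.continuous.continuousOn
    exact (hu j).bdd_mul h.continuous.aestronglyMeasurable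
      (Filter.Eventually.of_forall fun x => hC x (mem_univ x))
  refine squeeze_zero (fun j => integral_nonneg fun x => sq_nonneg _) (fun j => ?_)
    (by simpa using ht.const_mul (h x0)⁻¹)
  have h1 : ∫ x in K, (u j x) ^ 2 ∂ν ≤ ∫ x in K, (h x0)⁻¹ * (h x * (u j x) ^ 2) ∂ν := by
    refine setIntegral_mono_on (hu j).integrableOn ((hI j).const_mul _).integrableOn
      hK.measurableSet fun x hx => ?_
    have h2 : h x0 ≤ h x := hmin hx
    have h3 : 1 ≤ (h x0)⁻¹ * h x := by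
      rw [inv_mul_eq_div, le_div_iff₀ hc, one_mul]
      exact h2
    have h4 := sq_nonneg (u j x)
    calc (u j x) ^ 2 = 1 * (u j x) ^ 2 := by ring
      _ ≤ ((h x0)⁻¹ * h x) * (u j x) ^ 2 := mul_le_mul_of_nonneg_right h3 h4
      _ = _ := by ring
  refine h1.trans ?_
  rw [integral_const_mul]
  refine mul_le_mul_of_nonneg_left ?_ (inv_nonneg.2 hc.le)
  exact setIntegral_le_integral (hI j)
    (Filter.Eventually.of_forall fun x => mul_nonneg (hn x) (sq_nonneg _))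

end

end Pool.Agent.H240.SG
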