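import Pool.Agent.H240.SG.Fin

/-!
# Complete localization in a flat cylinder: the theorem
-/

set_option autoImplicit false
set_option linter.unusedSectionVars false

open Set Filter Topology MeasureTheory
open scoped ContDiff ComplexConjugate Real

noncomputable section

namespace Pool.Agent.H240.SG

open Pool.Agent.Y262.EG Pool.Agent.Y262.EX Pool.Agent.Y262.EL Pool.Agent.Y262.QE
open Pool.Agent.Y264.QR Pool.Agent.H240.SC

/-- the conclusion about a basis -/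
def Loc {M : Type} [TopologicalSpace M] [MeasurableSpace M] (μ : Measure M) (Z : Set M)
    (u : ℕ → M → ℝ) (lam : ℕ → ℝ) : Prop :=
  ∃ J : Set ℕ, (∀ C : ℝ, ∃ᶠ Λ : ℝ in atTop, C * √Λ < ({j | j ∈ J ∧ lam j ≤ Λ}.ncard : ℝ)) ∧
    ∀ K : Set M, IsCompact K → Disjoint K Z →
      Tendsto (fun j => ∫ x in K, (u j x) ^ 2 ∂μ) (atTop ⊓ 𝓟 J) (𝓝 0)

/-- the theorem -/
def Concl4 : Prop :=
  ∃ (M P : Type) (_ : MetricSpace M) (_ : CompactSpace M) (_ : ConnectedSpace M)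
    (_ : MeasurableSpace M) (_ : BorelSpace M) (_ : MetricSpace P) (_ : CompactSpace P)
    (_ : MeasurableSpace P) (_ : BorelSpace P) (Ω : Set ℂ) (φ : ℝ → ℂ → ℝ) (pr : ℂ → M) (q : Y → P)
    (μ : ℝ → Measure M) (m : ℝ → Measure P) (Fl : ℝ → ℝ → Y → Y) (h : M → ℝ) (L δ s0 : ℝ),
    0 < s0 ∧ 0 < L ∧ 0 < δ ∧ Stp L δ ⊆ Ω ∧
    (∀ z ∈ Stp L δ, ∀ w ∈ Stp L δ, (pr z = pr w ↔ ∃ n : ℤ, w = z + n * (2 * π * Complex.I))) ∧
    (∀ z, 0 ≤ z.re → z.re ≤ L → φ 0 z = 0) ∧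
    ContDiffOn ℝ ∞ (fun z => h (pr z)) Ω ∧ (∀ x, 0 ≤ h x) ∧ (∀ x, h x = 0 ↔ x ∈ Zc pr L) ∧
    Zc pr L ≠ univ ∧ (∀ s, ∀ z ∈ Ω, φ s z = φ 0 z + s / 2 * h (pr z)) ∧
    (∀ s, |s| < s0 → IsUT Ω (φ s) pr q ∧ IsArea Ω (φ s) pr (μ s) ∧ IsLiou Ω (φ s) q (m s) ∧
      IsGeo Ω (φ s) (Fl s) ∧ (∀ z ∈ Ω, curv (φ s) z ≤ 0) ∧
      (∀ z ∈ Ω, curv (φ s) z = 0 → pr z ∈ Zc pr L) ∧ Erg Ω q (m s) (Fl s) ∧
      ∃ u lam, EB Ω (φ s) pr (μ s) u lam) ∧
    ∀ᵐ s : ℝ, |s| < s0 → ∀ u lam, EB Ω (φ s) pr (μ s) u lam → Loc (μ s) (Zc pr L) u lam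

theorem fin_main : Concl4 := by
  obtain ⟨g, c1, C, hP⟩ := tProf
  obtain ⟨X, hX⟩ := cut_ex
  have h0 := L0p
  have hA : Act Gq Om ac := tAct
  obtain ⟨hI, hconj⟩ := tPhi2 g c1 C hP
  obtain ⟨M, iM, cM, pr, hpr⟩ := Pool.Agent.Y338.EX.qM Pool.Agent.Y749.EX.top Gq Om ac hA
  obtain ⟨P, iP, cP, q, hq⟩ := Pool.Agent.Y848.EX.qP Pool.Agent.Y749.EX.top Gq Om ac hA
    (fun γ z hz => (hI.2 γ z hz).1)
  let _ : MeasurableSpace M := borel M
  have _ : BorelSpace M := ⟨rfl⟩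
  let _ : MeasurableSpace P := borel P
  have _ : BorelSpace P := ⟨rfl⟩
  obtain ⟨κ, h, μ, D, Φ, σ, hB⟩ := base_ex hP hX hpr hq
  have hneM : Nonempty M := ⟨Φ 0⟩
  have hconn : ConnectedSpace M := { toPreconnectedSpace := ⟨hpr.conn⟩, toNonempty := hneM }
  have hUT0 : IsUT Om (phi g c1) pr q :=
    Pool.Agent.Y145.EX.qU Gq Om ac (phi g c1) M P pr q hA hI hpr hq
  obtain ⟨C', hC⟩ := tClsE g c1 C hP M P pr q hpr hUT0
  have hzero := h_zero hP hX hpr hC.strip hB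
  obtain ⟨s1, hs1, hvar⟩ := prof_var hP hX 1
  have hhs : ContDiffOn ℝ ∞ (fun z => h (pr z)) Om :=
    (hfP hP hX 1).sm.congr fun z hz => hB.hpr z hz
  -- the family
  have hfam : ∀ s : ℝ, ∃ (m : Measure P) (Fl : ℝ → Y → Y), |s| < 2 * s1 →
      IsUT Om (phs g X c1 s) pr q ∧ IsLiou Om (phs g X c1 s) q m ∧ IsGeo Om (phs g X c1 s) Fl ∧
      (∀ z ∈ Om, curv (phs g X c1 s) z ≤ 0) ∧
      (∀ z ∈ Om, curv (phs g X c1 s) z = 0 → pr z ∈ Zc pr L0) ∧ Erg Om q m Fl := by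
    intro s
    by_cases hs : |s| < 2 * s1
    · have hs2 : |s / 2| < s1 := by
        rw [abs_div, abs_two]
        linarith
      obtain ⟨Cs, hPs⟩ := hvar (s / 2) hs2
      have hIs : Inva Om (phs g X c1 s) ac := (tPhi2 _ _ Cs hPs).1
      have hUTs : IsUT Om (phs g X c1 s) pr q :=
        Pool.Agent.Y145.EX.qU Gq Om ac (phs g X c1 s) M P pr q hA hIs hpr hq
      obtain ⟨C2, hCs⟩ := tClsE _ _ Cs hPs M P pr q hpr hUTs
      obtain ⟨Fl, hFl⟩ := tGeo Gq Om ac _ hA hIs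
      obtain ⟨m, hm⟩ := tLiouEx M P Om _ pr q hUTs
      refine ⟨m, Fl, fun _ => ⟨hUTs, hm, hFl, hCs.neg, ?_, ?_⟩⟩
      · intro z hz hz0
        obtain ⟨w, hw1, hw2, hw3⟩ := hCs.zero z hz hz0
        exact ⟨w, ⟨hw1, hw2⟩, hw3⟩
      · exact ergodic M P Om _ pr q m Fl _ _ _ _ _ _ hUTs hm hFl hCs
    · exact ⟨0, fun _ p => p, fun h => absurd h hs⟩
  choose m Fl hmF using hfam
  refine ⟨M, P, iM, cM, hconn, inferInstance, inferInstance, iP, cP, inferInstance, inferInstance,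
    Om, phs g X c1, pr, q, fun s => wm μ (wt κ h s), m, Fl, h, L0, 3 / 2 * L0, 2 * s1,
    by positivity, h0, by positivity, hC.strip, ?_, ?_, hhs, hB.geo.hn, hzero, ?_, ?_, ?_, ?_⟩
  · intro z hz w hw
    refine ⟨hC.inj z hz w hw, ?_⟩
    rintro ⟨n, hn⟩
    have hper : ∀ k : ℤ, pr (z + k * (2 * π * Complex.I)) = pr z := by
      have hre : ∀ k : ℤ, (z + k * (2 * π * Complex.I)) ∈ Stp L0 (3 / 2 * L0) := by
        intro k
        have : (z + k * (2 * π * Complex.I)).re = z.re := by simp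
        constructor
        · rw [this]; exact hz.1
        · rw [this]; exact hz.2
      intro k
      induction k using Int.induction_on with
      | zero => simp
      | succ k ih =>
        have h1 := hC.per _ (hre k)
        rw [ih] at h1
        rw [← h1]
        congr 1
        push_cast
        ring
      | pred k ih =>
        have h1 := hC.per _ (hre (-k - 1))
        rw [← h1, ← ih]
        congr 1
        push_cast
        ring
    rw [hn, hper n]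
  · intro z hz1 hz2
    have hz : z ∈ Stp L0 (3 / 2 * L0) := ⟨by linarith, by linarith⟩
    rw [phs_eq, (tPhi1 g c1 C hP).2.1 z hz, hP.flat _ hz1 hz2]
    ring
  · intro hcon
    have hz : ((-(L0 / 4) : ℝ) : ℂ) ∈ Stp L0 (3 / 2 * L0) := by
      constructor
      · rw [Complex.ofReal_re]; linarith
      · rw [Complex.ofReal_re]; linarith
    have h1 : h (pr ((-(L0 / 4) : ℝ) : ℂ)) = 0 := by
      rw [hzero, hcon]
      trivial
    rw [hB.hpr _ (hC.strip hz), (hfP hP hX 1).strip _ hz, Complex.ofReal_re, et_near hX] at h1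
    · have h2 : 0 < g (-(L0 / 4)) := by
        refine g_pos hP (mem_I0 ?_) fun hcon => ?_
        · rw [abs_lt]
          constructor <;> linarith
        · linarith [hcon.1]
      linarith
    · rw [abs_le]
      constructor <;> linarith
  · intro s z hz
    rw [phs_eq, phs_eq, hB.hpr z hz]
    ring
  · intro s hs
    obtain ⟨a1, a2, a3, a4, a5, a6⟩ := hmF s hs
    obtain ⟨b1, b2, b3⟩ := fam_data hP hX hpr hq hB s
    obtain ⟨u, lam, hu⟩ := tEx M μ D hB.surf hneM (κ + s • h)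
    obtain ⟨v, hv⟩ := eb_ex a1 b1 b2 b3 hu
    exact ⟨a1, b3, a2, a3, a4, a5, a6, v, lam, hv⟩
  · filter_upwards [surf_main hB.surf hB.cyl hB.geo] with s hs hss u lam hu
    obtain ⟨a1, a2, a3, a4, a5, a6⟩ := hmF s hss
    obtain ⟨b1, b2, b3⟩ := fam_data hP hX hpr hq hB s
    obtain ⟨J, hJ1, hJ2⟩ := hs u lam (eb_weak a1 b1 b2 b3 hu)
    refine ⟨J, hJ1, fun K hK hKZ => ?_⟩
    have hfin : IsFiniteMeasure (wm μ fun x => Real.exp ((κ + s • h) x)) := (tFin M _ _ b1).1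
    refine mass_zero hB.geo.hn (fun j => ?_) hJ2 hK fun x hx hx0 => ?_
    · have h1 := (eb_weak a1 b1 b2 b3 hu).eig j
      exact h1.mem.integrable_sq
    · exact disjoint_left.1 hKZ hx ((hzero x).1 hx0)

end Pool.Agent.H240.SG
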