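import Pool.Graph.R_seed8.Y262.EX.All2

/-!
# Variation of the profile of the metric
-/

set_option autoImplicit false
set_option linter.unusedSectionVars false

open Set Filter Topology MeasureTheory
open scoped ContDiff ComplexConjugate Real

noncomputable section

namespace Pool.Agent.H240.SG

open Pool.Agent.Y262.EG Pool.Agent.Y262.EX

theorem L0p : 0 < L0 := tW.1

/-- the interval -/
def I0 : Set ℝ := Ioo (-(7 / 2 * L0)) (9 / 2 * L0)

theorem I0_open : IsOpen I0 := isOpen_Ioo

theorem mem_I0 {x : ℝ} (h : |x - L0 / 2| < 4 * L0) : x ∈ I0 := by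
  rw [abs_lt] at h
  exact ⟨by linarith [h.1], by linarith [h.2]⟩

/-- the cutoff -/
structure Cut (X : ℝ → ℝ) : Prop where
  sm : ContDiff ℝ ∞ X
  n0 : ∀ x, 0 ≤ X x
  n1 : ∀ x, X x ≤ 1
  one : ∀ x, |x - L0 / 2| ≤ 4 / 5 * L0 → X x = 1
  zer : ∀ x, 9 / 10 * L0 ≤ |x - L0 / 2| → X x = 0

theorem cut_ex : ∃ X, Cut X := by
  have h0 := L0p
  let f : ContDiffBump (L0 / 2 : ℝ) :=
    { rIn := 4 / 5 * L0, rOut := 9 / 10 * L0, rIn_pos := by positivity, rIn_lt_rOut := by linarith }
  refine ⟨f, f.contDiff, fun x => f.nonneg, fun x => f.le_one, fun x hx => ?_, fun x hx => ?_⟩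
  · refine f.one_of_mem_closedBall ?_
    rw [Metric.mem_closedBall, Real.dist_eq]
    exact hx
  · refine f.zero_of_le_dist ?_
    rw [Real.dist_eq]
    exact hx

/-- the direction of the variation -/
def et (g X : ℝ → ℝ) (c : ℝ) (x : ℝ) : ℝ := g x * X x + c * (1 - X x)

section

variable {g X : ℝ → ℝ} {c1 C c : ℝ}

theorem et_near (hX : Cut X) {x : ℝ} (hx : |x - L0 / 2| ≤ 4 / 5 * L0) : et g X c x = g x := by
  unfold et
  rw [hX.one x hx]
  ring

theorem et_far (hX : Cut X) {x : ℝ} (hx : 9 / 10 * L0 ≤ |x - L0 / 2|) : et g X c x = c := by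
  unfold et
  rw [hX.zer x hx]
  ring

theorem et_smooth (hP : Prof g c1 C) (hX : Cut X) : ContDiffOn ℝ ∞ (et g X c) I0 := by
  have h1 : ContDiffOn ℝ ∞ g I0 := hP.smooth
  have h2 : ContDiffOn ℝ ∞ X I0 := hX.sm.contDiffOn
  exact (h1.mul h2).add (contDiffOn_const.mul (contDiffOn_const.sub h2))

theorem deriv_smooth {f : ℝ → ℝ} (hf : ContDiffOn ℝ ∞ f I0) : ContDiffOn ℝ ∞ (deriv f) I0 :=
  ((contDiffOn_infty_iff_deriv_of_isOpen I0_open).1 hf).2

theorem deriv_lin {f f' : ℝ → ℝ} (hf : ContDiffOn ℝ ∞ f I0) (hf' : ContDiffOn ℝ ∞ f' I0) (s : ℝ)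
    {F : ℝ → ℝ} (hF : ∀ x ∈ I0, F x = f x + s * f' x) {x : ℝ} (hx : x ∈ I0) :
    deriv F x = deriv f x + s * deriv f' x := by
  have h1 : F =ᶠ[𝓝 x] fun x => f x + s * f' x := by
    filter_upwards [I0_open.mem_nhds hx] with y hy
    exact hF y hy
  have d1 : DifferentiableAt ℝ f x := ((hf x hx).contDiffAt (I0_open.mem_nhds hx)).differentiableAt
    (by simp)
  have d2 : DifferentiableAt ℝ f' x := ((hf' x hx).contDiffAt (I0_open.mem_nhds hx)).differentiableAt
    (by simp)
  rw [h1.deriv_eq]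
  exact (d1.hasDerivAt.add (d2.hasDerivAt.const_mul s)).deriv

theorem deriv_loc {f f' : ℝ → ℝ} {O : Set ℝ} (hO : IsOpen O) (h : ∀ x ∈ O, f x = f' x) :
    ∀ x ∈ O, deriv f x = deriv f' x := by
  intro x hx
  have h1 : f =ᶠ[𝓝 x] f' := by
    filter_upwards [hO.mem_nhds hx] with y hy
    exact h y hy
  exact h1.deriv_eq

/-- the profile is positive outside of the flat cylinder -/
theorem g_pos (hP : Prof g c1 C) {x : ℝ} (hx : x ∈ I0) (hn : ¬ (0 ≤ x ∧ x ≤ L0)) : 0 < g x := by
  have h0 := L0p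
  have hsm : ContDiffOn ℝ ∞ g I0 := hP.smooth
  have hIn : interior I0 = I0 := I0_open.interior_eq
  have hcv : ConvexOn ℝ I0 g := by
    refine convexOn_of_deriv2_nonneg (D := I0) (convex_Ioo _ _) hsm.continuousOn ?_ ?_ ?_
    · rw [hIn]
      exact hsm.differentiableOn (by simp)
    · rw [hIn]
      exact (deriv_smooth hsm).differentiableOn (by simp)
    · rw [hIn]
      exact fun y hy => hP.cvx y hy
  have m0 : (0 : ℝ) ∈ I0 := ⟨by linarith, by linarith⟩
  have mL : L0 ∈ I0 := ⟨by linarith, by linarith⟩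
  have g0 : g 0 = 0 := hP.flat 0 le_rfl h0.le
  have gL : g L0 = 0 := hP.flat L0 h0.le le_rfl
  -- three points
  have three : ∀ u v w : ℝ, u ∈ I0 → w ∈ I0 → u < v → v < w →
      (w - u) * g v ≤ (w - v) * g u + (v - u) * g w := by
    intro u v w hu hw huv hvw
    have hwu : 0 < w - u := by linarith
    have q1 : 0 ≤ (w - v) / (w - u) := div_nonneg (by linarith) hwu.le
    have q2 : 0 ≤ (v - u) / (w - u) := div_nonneg (by linarith) hwu.le
    have q3 : (w - v) / (w - u) + (v - u) / (w - u) = 1 := by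
      field_simp
      ring
    have h1 := hcv.2 hu hw q1 q2 q3
    have h2 : ((w - v) / (w - u)) • u + ((v - u) / (w - u)) • w = v := by
      simp only [smul_eq_mul]
      field_simp
      ring
    rw [h2] at h1
    simp only [smul_eq_mul] at h1
    have h3 := mul_le_mul_of_nonneg_left h1 hwu.le
    have h4 : (w - u) * ((w - v) / (w - u) * g u + (v - u) / (w - u) * g w) =
        (w - v) * g u + (v - u) * g w := by
      field_simp
    rwa [h4] at h3
  rcases lt_or_ge x 0 with hx0 | hx0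
  · have h1 := three x 0 L0 hx mL hx0 h0
    rw [g0, gL] at h1
    have h2 : 0 ≤ g x := by
      by_contra hcon
      push Not at hcon
      nlinarith
    rcases eq_or_lt_of_le h2 with h3 | h3
    swap
    · exact h3
    exfalso
    have h4 : ∀ y ∈ Ioo x 0, g y = (fun _ => (0 : ℝ)) y := by
      intro y hy
      have a1 := three x y 0 hx m0 hy.1 hy.2
      rw [g0, ← h3] at a1
      have a2 := three y 0 L0 ⟨by linarith [hx.1, hy.1], by linarith [hy.2]⟩ mL hy.2 h0
      rw [g0, gL] at a2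
      have hy1 := hy.1
      have hy2 := hy.2
      have b1 : g y ≤ 0 := by
        by_contra hcon
        push Not at hcon
        nlinarith
      have b2 : 0 ≤ g y := by
        by_contra hcon
        push Not at hcon
        nlinarith
      exact le_antisymm b1 b2
    have h5 := deriv_loc isOpen_Ioo h4
    have h5' : ∀ y ∈ Ioo x 0, deriv g y = (fun _ => (0 : ℝ)) y := fun y hy => by
      rw [h5 y hy]
      simp
    have h6 := deriv_loc isOpen_Ioo h5'
    have h7 : x / 2 ∈ Ioo x 0 := ⟨by linarith, by linarith⟩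
    have h8 := h6 _ h7
    rw [deriv_const] at h8
    have h9 := hP.zero (x / 2) ⟨by linarith [hx.1], by linarith⟩ h8
    linarith [h9.1]
  · have hxL : L0 < x := by
      by_contra hcon
      exact hn ⟨hx0, not_lt.1 hcon⟩
    have h1 := three 0 L0 x m0 hx h0 hxL
    rw [g0, gL] at h1
    have h2 : 0 ≤ g x := by
      by_contra hcon
      push Not at hcon
      nlinarith
    rcases eq_or_lt_of_le h2 with h3 | h3
    swap
    · exact h3
    exfalso
    have h4 : ∀ y ∈ Ioo L0 x, g y = (fun _ => (0 : ℝ)) y := by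
      intro y hy
      have a1 := three L0 y x mL hx hy.1 hy.2
      rw [gL, ← h3] at a1
      have a2 := three 0 L0 y m0 ⟨by linarith [hy.1], by linarith [hx.2, hy.2]⟩ h0 hy.1
      rw [g0, gL] at a2
      have hy1 := hy.1
      have hy2 := hy.2
      have b1 : g y ≤ 0 := by
        by_contra hcon
        push Not at hcon
        nlinarith
      have b2 : 0 ≤ g y := by
        by_contra hcon
        push Not at hcon
        nlinarith
      exact le_antisymm b1 b2
    have h5 := deriv_loc isOpen_Ioo h4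
    have h5' : ∀ y ∈ Ioo L0 x, deriv g y = (fun _ => (0 : ℝ)) y := fun y hy => by
      rw [h5 y hy]
      simp
    have h6 := deriv_loc isOpen_Ioo h5'
    have h7 : (L0 + x) / 2 ∈ Ioo L0 x := ⟨by linarith, by linarith⟩
    have h8 := h6 _ h7
    rw [deriv_const] at h8
    have h9 := hP.zero ((L0 + x) / 2) ⟨by linarith, by linarith [hx.2]⟩ h8
    linarith [h9.2]

/-- small variations of a profile are profiles -/
theorem prof_var (hP : Prof g c1 C) (hX : Cut X) (c : ℝ) :
    ∃ s0 : ℝ, 0 < s0 ∧ ∀ s : ℝ, |s| < s0 →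
      ∃ C' : ℝ, Prof (fun x => g x + s * et g X c x) (c1 + s * c) C' := by
  have h0 := L0p
  have hsm : ContDiffOn ℝ ∞ g I0 := hP.smooth
  have hes : ContDiffOn ℝ ∞ (et g X c) I0 := et_smooth hP hX
  have g1 := deriv_smooth hsm
  have g2 := deriv_smooth g1
  have g3 := deriv_smooth g2
  have e1 := deriv_smooth hes
  have e2 := deriv_smooth e1
  have e3 := deriv_smooth e2
  -- the near and the far part
  have hnO : IsOpen {x : ℝ | |x - L0 / 2| < 4 / 5 * L0} := isOpen_lt (by fun_prop) continuous_const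
  have hfO : IsOpen {x : ℝ | 9 / 10 * L0 < |x - L0 / 2|} := isOpen_lt continuous_const (by fun_prop)
  have n1 := deriv_loc hnO (f := et g X c) (f' := g) fun x hx => et_near hX (le_of_lt hx)
  have n2 := deriv_loc hnO n1
  have n3 := deriv_loc hnO n2
  have f1 := deriv_loc hfO (f := et g X c) (f' := fun _ => c) fun x hx => et_far hX (le_of_lt hx)
  have f1' : ∀ x ∈ {x : ℝ | 9 / 10 * L0 < |x - L0 / 2|}, deriv (et g X c) x = (fun _ => (0 : ℝ)) x :=
    fun x hx => by rw [f1 x hx]; simp
  have f2 := deriv_loc hfO f1'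
  have f2' : ∀ x ∈ {x : ℝ | 9 / 10 * L0 < |x - L0 / 2|},
      deriv (deriv (et g X c)) x = (fun _ => (0 : ℝ)) x :=
    fun x hx => by rw [f2 x hx]; simp
  have f3 := deriv_loc hfO f2'
  have f3' : ∀ x ∈ {x : ℝ | 9 / 10 * L0 < |x - L0 / 2|},
      deriv (deriv (deriv (et g X c))) x = 0 :=
    fun x hx => by rw [f3 x hx]; simp
  -- the middle part
  set K : Set ℝ := {x : ℝ | 4 / 5 * L0 ≤ |x - L0 / 2| ∧ |x - L0 / 2| ≤ 9 / 10 * L0} with hK
  have hKc : IsCompact K := by
    refine isCompact_Icc.of_isClosed_subset (s := Icc (-(2 * L0)) (3 * L0)) ?_ ?_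
    · have k1 : IsClosed {x : ℝ | 4 / 5 * L0 ≤ |x - L0 / 2|} :=
        isClosed_le continuous_const (by fun_prop)
      have k2 : IsClosed {x : ℝ | |x - L0 / 2| ≤ 9 / 10 * L0} :=
        isClosed_le (by fun_prop) continuous_const
      exact k1.inter k2
    · intro x hx
      have := abs_le.1 hx.2
      exact ⟨by linarith [this.1], by linarith [this.2]⟩
  have hKI : K ⊆ I0 := fun x hx => mem_I0 (by linarith [hx.2])
  have hKne : K.Nonempty := by
    refine ⟨L0 / 2 + 4 / 5 * L0, ?_, ?_⟩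
    · rw [add_sub_cancel_left, abs_of_pos (by positivity)]
    · rw [add_sub_cancel_left, abs_of_pos (by positivity)]
      linarith
  obtain ⟨xm, hxm, hmin⟩ := hKc.exists_isMinOn hKne (g2.continuousOn.mono hKI)
  set m := deriv (deriv g) xm with hm
  have hm0 : 0 < m := by
    refine lt_of_le_of_ne (hP.cvx xm (hKI hxm)) fun hcon => ?_
    have h1 := hP.zero xm (hKI hxm) hcon.symm
    have h2 := hxm.1
    have h3 : |xm - L0 / 2| ≤ L0 / 2 := by
      rw [abs_le]
      exact ⟨by linarith [h1.1], by linarith [h1.2]⟩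
    linarith
  have hmK : ∀ x ∈ K, m ≤ deriv (deriv g) x := fun x hx => hmin hx
  obtain ⟨B2, hB2⟩ := hKc.exists_bound_of_continuousOn (e2.continuousOn.mono hKI)
  obtain ⟨B3, hB3⟩ := hKc.exists_bound_of_continuousOn (e3.continuousOn.mono hKI)
  obtain ⟨G3, hG3⟩ := hKc.exists_bound_of_continuousOn (g3.continuousOn.mono hKI)
  have hB20 : 0 ≤ B2 := (norm_nonneg _).trans (hB2 xm hxm)
  have hB30 : 0 ≤ B3 := (norm_nonneg _).trans (hB3 xm hxm)
  have hG30 : 0 ≤ G3 := (norm_nonneg _).trans (hG3 xm hxm)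
  refine ⟨min 1 (m / (2 * (B2 + 1))), lt_min one_pos (by positivity), fun s hs => ?_⟩
  have hs1 : |s| < 1 := hs.trans_le (min_le_left _ _)
  have hs2 : |s| < m / (2 * (B2 + 1)) := hs.trans_le (min_le_right _ _)
  rw [lt_div_iff₀ (by positivity)] at hs2
  have hs1' := abs_lt.1 hs1
  set G : ℝ → ℝ := fun x => g x + s * et g X c x with hG
  have D1 : ∀ x ∈ I0, deriv G x = deriv g x + s * deriv (et g X c) x := fun x hx =>
    deriv_lin hsm hes s (fun _ _ => rfl) hx
  have D2 : ∀ x ∈ I0, deriv (deriv G) x = deriv (deriv g) x + s * deriv (deriv (et g X c)) x :=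
    fun x hx => deriv_lin g1 e1 s D1 hx
  have D3 : ∀ x ∈ I0, deriv (deriv (deriv G)) x =
      deriv (deriv (deriv g)) x + s * deriv (deriv (deriv (et g X c))) x :=
    fun x hx => deriv_lin g2 e2 s D2 hx
  have hmid : ∀ x ∈ K, m / 2 ≤ deriv (deriv G) x := by
    intro x hx
    rw [D2 x (hKI hx)]
    have a1 := hmK x hx
    have a2 := hB2 x hx
    rw [Real.norm_eq_abs] at a2
    have a3 : |s * deriv (deriv (et g X c)) x| ≤ |s| * B2 := by
      rw [abs_mul]
      exact mul_le_mul_of_nonneg_left a2 (abs_nonneg _)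
    have a4 := (abs_le.1 a3).1
    have a5 : |s| * B2 ≤ m / 2 := by
      have := abs_nonneg s
      nlinarith
    linarith
  have htri : ∀ x : ℝ, |x - L0 / 2| < 4 / 5 * L0 ∨ x ∈ K ∨ 9 / 10 * L0 < |x - L0 / 2| := by
    intro x
    rcases lt_or_ge (|x - L0 / 2|) (4 / 5 * L0) with h | h
    · exact Or.inl h
    · rcases le_or_gt (|x - L0 / 2|) (9 / 10 * L0) with h' | h'
      · exact Or.inr (Or.inl ⟨h, h'⟩)
      · exact Or.inr (Or.inr h')
  have hmp : 0 < (m / 2) ^ (39 / 40 : ℝ) := Real.rpow_pos_of_pos (by positivity) _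
  refine ⟨2 * |C| + (G3 + B3) / (m / 2) ^ (39 / 40 : ℝ), ?_, ?_, ?_, ?_, ?_, ?_⟩
  · exact hsm.add (contDiffOn_const.mul hes)
  · intro x hx1 hx2
    show g x + s * et g X c x = 0
    rw [et_near hX, hP.flat x hx1 hx2]
    · ring
    · rw [abs_le]
      exact ⟨by linarith, by linarith⟩
  · intro x hx1 hx2
    show g x + s * et g X c x = F0 x + (c1 + s * c)
    rw [et_far hX (by linarith), hP.hyp x hx1 hx2]
    ring
  · intro x hx
    rcases htri x with h | h | h
    · rw [D2 x hx, n2 x h]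
      have := hP.cvx x hx
      nlinarith
    · have := hmid x h
      linarith
    · rw [D2 x hx, f2' x h]
      have := hP.cvx x hx
      simpa using this
  · intro x hx hz
    rcases htri x with h | h | h
    · rw [D2 x hx, n2 x h] at hz
      have h1 : (1 + s) * deriv (deriv g) x = 0 := by linarith
      have h2 : deriv (deriv g) x = 0 := by
        rcases mul_eq_zero.1 h1 with h3 | h3
        · linarith
        · exact h3
      exact hP.zero x hx h2
    · have := hmid x h
      linarith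
    · rw [D2 x hx, f2' x h] at hz
      exact hP.zero x hx (by simpa using hz)
  · intro x hx
    have hxI : x ∈ I0 := mem_I0 (by linarith)
    have hd := hP.der x hx
    have hg2 := hP.cvx x hxI
    have hfr : 0 ≤ (G3 + B3) / (m / 2) ^ (39 / 40 : ℝ) := by positivity
    rcases htri x with h | h | h
    · rw [D3 x hxI, D2 x hxI, n3 x h, n2 x h]
      set y := deriv (deriv g) x with hy
      set w := deriv (deriv (deriv g)) x with hw
      have hy0 : 0 ≤ y ^ (39 / 40 : ℝ) := Real.rpow_nonneg hg2 _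
      have a1 : |w + s * w| = (1 + s) * |w| := by
        have : w + s * w = (1 + s) * w := by ring
        rw [this, abs_mul, abs_of_pos (by linarith)]
      have a2 : (y + s * y) ^ (39 / 40 : ℝ) = (1 + s) ^ (39 / 40 : ℝ) * y ^ (39 / 40 : ℝ) := by
        have : y + s * y = (1 + s) * y := by ring
        rw [this, Real.mul_rpow (by linarith) hg2]
      have a3 : (1 + s) ≤ 2 * (1 + s) ^ (39 / 40 : ℝ) := by
        have h1s : 0 < 1 + s := by linarith
        have h2s : 1 + s ≤ 2 := by linarith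
        have a4 : (1 + s) = (1 + s) ^ (39 / 40 : ℝ) * (1 + s) ^ (1 / 40 : ℝ) := by
          rw [← Real.rpow_add h1s]
          norm_num
        have a5 : (1 + s) ^ (1 / 40 : ℝ) ≤ 2 := by
          calc (1 + s) ^ (1 / 40 : ℝ) ≤ 2 ^ (1 / 40 : ℝ) :=
                Real.rpow_le_rpow h1s.le h2s (by norm_num)
            _ ≤ 2 ^ (1 : ℝ) := Real.rpow_le_rpow_of_exponent_le (by norm_num) (by norm_num)
            _ = 2 := Real.rpow_one 2
        have a6 : 0 ≤ (1 + s) ^ (39 / 40 : ℝ) := Real.rpow_nonneg h1s.le _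
        calc 1 + s = (1 + s) ^ (39 / 40 : ℝ) * (1 + s) ^ (1 / 40 : ℝ) := a4
          _ ≤ (1 + s) ^ (39 / 40 : ℝ) * 2 := mul_le_mul_of_nonneg_left a5 a6
          _ = _ := by ring
      rw [a1, a2]
      have a6 : 0 ≤ (1 + s) ^ (39 / 40 : ℝ) := Real.rpow_nonneg (by linarith) _
      have a7 : |w| ≤ |C| * y ^ (39 / 40 : ℝ) :=
        hd.trans (mul_le_mul_of_nonneg_right (le_abs_self C) hy0)
      calc (1 + s) * |w| ≤ (2 * (1 + s) ^ (39 / 40 : ℝ)) * (|C| * y ^ (39 / 40 : ℝ)) :=
            mul_le_mul a3 a7 (abs_nonneg _) (by positivity)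
        _ = 2 * |C| * ((1 + s) ^ (39 / 40 : ℝ) * y ^ (39 / 40 : ℝ)) := by ring
        _ ≤ _ := mul_le_mul_of_nonneg_right (by linarith) (by positivity)
    · have a1 := hmid x h
      have a2 : (m / 2) ^ (39 / 40 : ℝ) ≤ (deriv (deriv G) x) ^ (39 / 40 : ℝ) :=
        Real.rpow_le_rpow (by positivity) a1 (by norm_num)
      have a3 : |deriv (deriv (deriv G)) x| ≤ G3 + B3 := by
        rw [D3 x hxI]
        have b1 := hG3 x h
        have b2 := hB3 x h
        rw [Real.norm_eq_abs] at b1 b2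
        refine (abs_add_le _ _).trans ?_
        rw [abs_mul]
        have : |s| * |deriv (deriv (deriv (et g X c))) x| ≤ 1 * B3 :=
          mul_le_mul hs1.le b2 (abs_nonneg _) zero_le_one
        linarith
      have a4 : G3 + B3 ≤ (G3 + B3) / (m / 2) ^ (39 / 40 : ℝ) *
          (deriv (deriv G) x) ^ (39 / 40 : ℝ) := by
        rw [div_mul_eq_mul_div, le_div_iff₀ hmp]
        exact mul_le_mul_of_nonneg_left a2 (by positivity)
      refine a3.trans (a4.trans ?_)
      refine mul_le_mul_of_nonneg_right ?_ (hmp.le.trans a2)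
      have := abs_nonneg C
      linarith
    · rw [D3 x hxI, D2 x hxI, f3' x h, f2' x h, mul_zero, add_zero, add_zero]
      refine hd.trans (mul_le_mul_of_nonneg_right ?_ (Real.rpow_nonneg hg2 _))
      have := le_abs_self C
      have := abs_nonneg C
      linarith

end

end Pool.Agent.H240.SG
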