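import Pool.Agent.H240.SG.Cyl0
import Pool.Agent.H240.SC.SurfThm
import Pool.Graph.R_seed8.Y262.EL.All

/-!
# The family of metrics on the surface
-/

set_option autoImplicit false
set_option linter.unusedSectionVars false

open Set Filter Topology MeasureTheory
open scoped ContDiff ComplexConjugate Real

noncomputable section

namespace Pool.Agent.H240.SG

open Pool.Agent.Y262.EG Pool.Agent.Y262.EX Pool.Agent.Y262.EL Pool.Agent.Y262.QE
open Pool.Agent.H240.SC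

/-- the metric which is flat on the longer cylinder -/
def ph0 (g X : ℝ → ℝ) (c1 : ℝ) (z : ℂ) : ℝ := phi g c1 z - Hf (et g X 0) 0 z

/-- the metric of the family -/
def phs (g X : ℝ → ℝ) (c1 s : ℝ) : ℂ → ℝ := phi (fun x => g x + s / 2 * et g X 1 x) (c1 + s / 2 * 1)

section

variable {g X : ℝ → ℝ} {c1 C : ℝ}

theorem ph0_inva (hP : Prof g c1 C) (hX : Cut X) : Inva Om (ph0 g X c1) ac := by
  have h1 := (tPhi2 g c1 C hP).1
  have h2 := hfP hP hX 0
  refine ⟨h1.1.sub h2.sm, fun γ z hz => ⟨(h1.2 γ z hz).1, ?_⟩⟩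
  have h3 := (h1.2 γ z hz).2
  have h4 := h2.inv γ z hz
  unfold ph0
  rw [h4]
  linarith

theorem ph0_conj (hP : Prof g c1 C) (hX : Cut X) : ∀ z ∈ Om, ph0 g X c1 (conj z) = ph0 g X c1 z := by
  intro z hz
  have h1 := (tPhi2 g c1 C hP).2 z hz
  have h2 := (hfP hP hX 0).cj z hz
  unfold ph0
  rw [h1, h2]

theorem near_of_stp {z : ℂ} (hz : z ∈ Stp L0 (1 / 4 * L0)) : |z.re - L0 / 2| ≤ 4 / 5 * L0 := by
  have h0 := L0p
  have h1 := hz.1
  have h2 := hz.2
  rw [abs_le]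
  constructor <;> linarith

theorem stp_sub {z : ℂ} (hz : z ∈ Stp L0 (1 / 4 * L0)) : z ∈ Stp L0 (3 / 2 * L0) := by
  have h0 := L0p
  have h1 := hz.1
  have h2 := hz.2
  exact ⟨by linarith, by linarith⟩

theorem ph0_zero (hP : Prof g c1 C) (hX : Cut X) : ∀ z ∈ Stp L0 (1 / 4 * L0), ph0 g X c1 z = 0 := by
  intro z hz
  have h1 := (tPhi1 g c1 C hP).2.1 z (stp_sub hz)
  have h2 := (hfP hP hX 0).strip z (stp_sub hz)
  unfold ph0
  rw [h1, h2, et_near hX (near_of_stp hz)]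
  ring

theorem phs_eq (s : ℝ) (z : ℂ) : phs g X c1 s z = phi g c1 z + s / 2 * Hf (et g X 1) 1 z := phi_lin g (et g X 1) c1 1 (s / 2) z

/-- the direction of the family is nonnegative, and positive outside of the flat cylinder -/
theorem Hf_pos (hP : Prof g c1 C) (hX : Cut X) {z : ℂ} (hz : z ∈ Om) :
    0 ≤ Hf (et g X 1) 1 z ∧ ((∀ γ : Gq, ¬ (0 ≤ (ac γ z).re ∧ (ac γ z).re ≤ L0)) →
      0 < Hf (et g X 1) 1 z) := by
  have h0 := L0p
  have hF := hfP hP hX 1
  by_cases h : ∃ γ : Gq, ac γ z ∈ Stp L0 (3 / 2 * L0)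
  · obtain ⟨γ, hγ⟩ := h
    rw [← hF.inv γ z hz, hF.strip _ hγ]
    set x := (ac γ z).re with hx
    have hxI : x ∈ I0 := mem_I0 (by
      have h1 := hγ.1
      have h2 := hγ.2
      rw [abs_lt]
      constructor <;> linarith)
    have hpos : ¬ (0 ≤ x ∧ x ≤ L0) → 0 < et g X 1 x := by
      intro hn
      have h1 := g_pos hP hxI hn
      have h2 := hX.n0 x
      have h3 := hX.n1 x
      unfold et
      rcases eq_or_lt_of_le h2 with h4 | h4
      · rw [← h4]
        norm_num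
      · have : 0 < g x * X x := mul_pos h1 h4
        linarith
    refine ⟨?_, fun hn => hpos (hn γ)⟩
    by_cases hn : 0 ≤ x ∧ x ≤ L0
    · have h1 := hP.flat x hn.1 hn.2
      have h3 := hX.n1 x
      unfold et
      rw [h1]
      linarith
    · exact (hpos hn).le
  · push Not at h
    have h1 : Hf (et g X 1) 1 z = 1 := hF.out z hz fun γ hγ => h γ ⟨by linarith [hγ.1], by
      linarith [hγ.2]⟩
    rw [h1]
    exact ⟨zero_le_one, fun _ => one_pos⟩

/-- the data of the surface -/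
structure Bs {M : Type} [MetricSpace M] [MeasurableSpace M] (g X : ℝ → ℝ) (c1 : ℝ) (pr : ℂ → M)
    (κ h : C(M, ℝ)) (μ : Measure M) (D : Data M) (Φ : ℂ → M) (σ : M → M) : Prop where
  hpr : ∀ z ∈ Om, h (pr z) = Hf (et g X 1) 1 z
  κpr : ∀ z ∈ Om, κ (pr z) = 2 * Hf (et g X 0) 0 z
  surf : D.IsSurf μ
  area : IsArea Om (ph0 g X c1) pr μ
  cyl : D.IsCyl μ (3 / 2 * L0) Φ σ
  cmp : Compat D Om (ph0 g X c1) pr
  geo : Geo (3 / 2 * L0) (1 / 4 * L0) (5 / 4 * L0) 2 Φ κ h (fun x => 2 * g (x - 1 / 4 * L0))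
    (fun x => g (x - 1 / 4 * L0))

end

end Pool.Agent.H240.SG
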