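import Pool.Agent.H240.SG.Base

/-!
# Existence of the family of metrics on the surface
-/

set_option autoImplicit false
set_option linter.unusedSectionVars false

open Set Filter Topology MeasureTheory
open scoped ContDiff ComplexConjugate Real

noncomputable section

namespace Pool.Agent.H240.SG

open Pool.Agent.Y262.EG Pool.Agent.Y262.EX Pool.Agent.Y262.EL Pool.Agent.Y262.QE
open Pool.Agent.H240.SC

section

variable {g X : ℝ → ℝ} {c1 C : ℝ}

theorem base_ex (hP : Prof g c1 C) (hX : Cut X) {M P : Type} [MetricSpace M] [CompactSpace M]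
    [MetricSpace P] [CompactSpace P] [MeasurableSpace M] [BorelSpace M] {pr : ℂ → M} {q : Y → P}
    (hpr : PrM Om ac pr) (hq : PrP Om ac q) :
    ∃ (κ h : C(M, ℝ)) (μ : Measure M) (D : Data M) (Φ : ℂ → M) (σ : M → M),
      Bs g X c1 pr κ h μ D Φ σ := by
  have h0 := L0p
  have hA : Act Gq Om ac := tAct
  have hUT : IsUT Om (ph0 g X c1) pr q :=
    Pool.Agent.Y145.EX.qU Gq Om ac (ph0 g X c1) M P pr q hA (ph0_inva hP hX) hpr hq
  have hUT1 : IsUT Om (phi g c1) pr q :=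
    Pool.Agent.Y145.EX.qU Gq Om ac (phi g c1) M P pr q hA (tPhi2 g c1 C hP).1 hpr hq
  obtain ⟨C', hC⟩ := tClsE g c1 C hP M P pr q hpr hUT1
  obtain ⟨σ, hσ⟩ := Pool.Agent.Y658.EX.sigEx Gq M Om ac (ph0 g X c1) pr hpr tConj.1
    (ph0_conj hP hX) (fun γ => tConj.2 γ)
  obtain ⟨μ, hμ⟩ :=
    Pool.Agent.Y80.EX.areaEx Pool.Agent.Y749.EX.etale M P Om (ph0 g X c1) pr q hUT
  obtain ⟨h, hh⟩ := desc hpr (hfP hP hX 1).sm.continuousOn (hfP hP hX 1).inv
  obtain ⟨κ', hκ'⟩ := desc hpr (hfP hP hX 0).sm.continuousOn (hfP hP hX 0).inv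
  set c : ℝ := 1 / 4 * L0 with hc
  have hU' := ut_sh hUT c
  have hμ' := area_sh hμ c
  have hσ' := rfl_sh hσ c
  have hst : ∀ z ∈ Strip (3 / 2 * L0), z - c ∈ Stp L0 (1 / 4 * L0) := by
    intro z hz
    have h1 := hz.1
    have h2 := hz.2
    constructor
    · rw [Complex.sub_re, Complex.ofReal_re]
      linarith
    · rw [Complex.sub_re, Complex.ofReal_re]
      linarith
  have hst' : ∀ z ∈ Strip (3 / 2 * L0), z - c ∈ Stp L0 (3 / 2 * L0) := fun z hz =>
    stp_sub (hst z hz)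
  have hstO : ∀ z ∈ Strip (3 / 2 * L0), z - c ∈ Om := fun z hz => hC.strip (hst' z hz)
  have hCy : Cy0 (sO c Om) (sF c (ph0 g X c1)) (sF c pr) (3 / 2 * L0) := by
    refine ⟨by positivity, fun z hz => hstO z hz, fun z hz => ph0_zero hP hX _ (hst z hz),
      fun z hz => ?_, fun z hz w hw he => ?_⟩
    · show pr (z + 2 * π * Complex.I - c) = pr (z - c)
      rw [← hC.per (z - c) (hst' z hz)]
      congr 1
      ring
    · obtain ⟨n, hn⟩ := hC.inj (z - c) (hst' z hz) (w - c) (hst' w hw) he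
      refine ⟨n, ?_⟩
      have : w = (w - c) + c := by ring
      rw [this, hn]
      ring
  obtain ⟨N, T, hAt⟩ := atl0 hU' hCy
  obtain ⟨hS, hCmp, hT⟩ := Pool.Agent.Y838.EX.surf M P (sO c Om) _ _ (sQ c q) μ (3 / 2 * L0) N T
    hU' hμ' hAt
  obtain ⟨Φ, hΦ1, hΦ2⟩ := cyl0 hU' hCy hμ' hσ' hAt hT
  have hκ2 : ∀ z ∈ Om, ((2 : ℝ) • κ') (pr z) = 2 * Hf (et g X 0) 0 z := by
    intro z hz
    rw [← hκ' z hz]
    simp
  have hI : ∀ x ∈ Icc 0 (3 / 2 * L0), x - c ∈ I0 := by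
    intro x hx
    refine mem_I0 ?_
    rw [abs_lt]
    constructor <;> linarith [hx.1, hx.2]
  have hgc : ContinuousOn (fun x => g (x - c)) (Icc 0 (3 / 2 * L0)) := by
    refine (hP.smooth.continuousOn).comp (by fun_prop) ?_
    intro x hx
    exact hI x hx
  have hg0 : ∀ x ∈ Icc 0 (3 / 2 * L0), 0 ≤ g (x - c) := by
    intro x hx
    by_cases hn : 0 ≤ x - c ∧ x - c ≤ L0
    · rw [hP.flat _ hn.1 hn.2]
    · exact (g_pos hP (hI x hx) hn).le
  refine ⟨(2 : ℝ) • κ', h, μ, _, Φ, σ, ⟨hh, hκ2, hS, hμ, hΦ1, ?_,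
    ⟨⟨by positivity, ?_, ?_, ?_, hgc, ?_, hg0, ?_, by norm_num, ?_⟩, ?_, ?_, ?_⟩⟩⟩
  · intro i
    obtain ⟨b, hb, hb'⟩ := hCmp i
    refine ⟨fun z => b z - c, hb.sub_const _, fun z hz => ?_⟩
    obtain ⟨b1, b2, b3, b4⟩ := hb' z hz
    have hd : deriv (fun z => b z - (c : ℂ)) z = deriv b z := deriv_sub_const (c : ℂ)
    refine ⟨b1, b2, ?_, ?_⟩
    · rw [hd]
      exact b3
    · rw [hd]
      exact b4
  · linarith
  · linarith
  · exact continuousOn_const.mul hgc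
  · intro x hx
    have h1 : g (x - c) = 0 := hP.flat _ (by linarith [hx.1]) (by linarith [hx.2])
    refine ⟨?_, h1⟩
    show 2 * g (x - c) = 0
    rw [h1, mul_zero]
  · intro x hx hn
    refine g_pos hP (hI x ⟨hx.1.le, hx.2.le⟩) fun hcon => hn ⟨by linarith [hcon.1], by
      linarith [hcon.2]⟩
  · intro x _
    exact le_rfl
  · intro z hz
    rw [hΦ2 z hz]
    show ((2 : ℝ) • κ') (pr (z - c)) = _
    rw [hκ2 _ (hstO z hz), (hfP hP hX 0).strip _ (hst' z hz), et_near hX (near_of_stp (hst z hz)),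
      Complex.sub_re, Complex.ofReal_re]
  · intro z hz
    rw [hΦ2 z hz]
    show h (pr (z - c)) = _
    rw [hh _ (hstO z hz), (hfP hP hX 1).strip _ (hst' z hz), et_near hX (near_of_stp (hst z hz)),
      Complex.sub_re, Complex.ofReal_re]
  · intro x
    obtain ⟨z, hz, rfl⟩ : x ∈ pr '' Om := by rw [hpr.surj]; trivial
    rw [hh z hz]
    exact (Hf_pos hP hX hz).1

end

end Pool.Agent.H240.SG
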