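import Pool.Agent.H240.SG.Shift

/-!
# Atlas with a cylinder on which the metric is flat

(Adapted from the library modules Y838.EX.Atl and Y46.EX.Cyl.)
-/

set_option autoImplicit false
set_option linter.unusedSectionVars false

open Set Filter Topology MeasureTheory
open scoped ContDiff ComplexConjugate Real

noncomputable section

namespace Pool.Agent.H240.SG

open Pool.Agent.Y262.EG Pool.Agent.Y262.EX Pool.Agent.Y838.EX Pool.Agent.Y46.EX

/-- the metric is flat on the cylinder `0 < Re z < L` -/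
structure Cy0 {M : Type} (Ω : Set ℂ) (φ : ℂ → ℝ) (pr : ℂ → M) (L : ℝ) : Prop where
  posL : 0 < L
  strip : Pool.Agent.Y262.QE.Strip L ⊆ Ω
  zero : ∀ z ∈ Pool.Agent.Y262.QE.Strip L, φ z = 0
  per : ∀ z ∈ Pool.Agent.Y262.QE.Strip L, pr (z + 2 * Real.pi * Complex.I) = pr z
  inj : ∀ z ∈ Pool.Agent.Y262.QE.Strip L, ∀ w ∈ Pool.Agent.Y262.QE.Strip L, pr z = pr w →
    ∃ n : ℤ, w = z + n * (2 * Real.pi * Complex.I)

theorem atl0 {M P : Type} [MetricSpace M] [CompactSpace M] [MetricSpace P] [CompactSpace P]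
    {Ω : Set ℂ} {φ : ℂ → ℝ} {pr : ℂ → M} {q : Y → P} {L : ℝ} (hU : IsUT Ω φ pr q)
    (hC : Cy0 Ω φ pr L) : ∃ (N : ℕ) (T : Fin N → Set ℂ), Atl Ω pr L N T := by
  have hrs : ∀ b, Pool.Agent.Y262.QE.Rec L b ⊆ Pool.Agent.Y262.QE.Strip L := fun b z hz => hz.1
  have hsub : ∀ b, Pool.Agent.Y262.QE.Rec L b ⊆ Ω := fun b => (hrs b).trans hC.strip
  have hinj : ∀ b, InjOn pr (Pool.Agent.Y262.QE.Rec L b) := by
    intro b z hz w hw hzw
    obtain ⟨n, hn⟩ := hC.inj z (hrs b hz) w (hrs b hw) hzw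
    have him : w.im = z.im + n * (2 * π) := by
      rw [hn]; simp
    have h1 := hz.2.1
    have h2 := hz.2.2
    have h3 := hw.2.1
    have h4 := hw.2.2
    have hpi := Real.pi_pos
    have hn0 : n = 0 := by
      have ha : (n : ℝ) < 1 := by
        by_contra hcon
        push Not at hcon
        nlinarith
      have hb : (-1 : ℝ) < n := by
        by_contra hcon
        push Not at hcon
        nlinarith
      have ha' : n < 1 := by exact_mod_cast ha
      have hb' : -1 < n := by exact_mod_cast hb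
      omega
    rw [hn, hn0]
    simp
  choose! r hr hrs hri using hU.injp
  have hcov : (univ : Set M) ⊆ ⋃ z : Ω, pr '' Metric.ball z.1 (r z.1) := by
    intro x _
    have hx : x ∈ pr '' Ω := by rw [hU.surjp]; trivial
    obtain ⟨z, hz, rfl⟩ := hx
    exact mem_iUnion.2 ⟨⟨z, hz⟩, z, Metric.mem_ball_self (hr z hz), rfl⟩
  obtain ⟨t, ht⟩ := isCompact_univ.elim_finite_subcover (fun z : Ω => pr '' Metric.ball z.1 (r z.1))
    (fun z => hU.opnp _ Metric.isOpen_ball (hrs z.1 z.2)) hcov
  classical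
  let F : Bool ⊕ t → Set ℂ := Sum.elim
    (fun b => if b then Pool.Agent.Y262.QE.Rec L (-π) else Pool.Agent.Y262.QE.Rec L 0)
    (fun z => Metric.ball z.1.1 (r z.1.1))
  have hF : ∀ i, IsOpen (F i) ∧ F i ⊆ Ω ∧ InjOn pr (F i) := by
    rintro (b | z)
    · cases b
      · exact ⟨rec_open _ _, hsub _, hinj _⟩
      · exact ⟨rec_open _ _, hsub _, hinj _⟩
    · exact ⟨Metric.isOpen_ball, hrs _ z.1.2, hri _ z.1.2⟩
  let e := Fintype.equivFin (Bool ⊕ t)
  refine ⟨Fintype.card (Bool ⊕ t), fun i => F (e.symm i), fun i => (hF _).1, fun i => (hF _).2.1,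
    fun i => (hF _).2.2, ?_, ?_⟩
  · intro x
    have hx := ht (mem_univ x)
    simp only [mem_iUnion] at hx
    obtain ⟨z, hz, hxz⟩ := hx
    refine ⟨e (Sum.inr ⟨z, hz⟩), ?_⟩
    simp only [Equiv.symm_apply_apply]
    exact hxz
  · rintro b (rfl | rfl)
    · refine ⟨e (Sum.inl true), ?_⟩
      simp [F]
    · refine ⟨e (Sum.inl false), ?_⟩
      simp [F]

/-- the flat cylinder and the reflection in the atlas -/
theorem cyl0 {M P : Type} [MetricSpace M] [CompactSpace M] [MetricSpace P] [CompactSpace P]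
    [MeasurableSpace M] [BorelSpace M] {Ω : Set ℂ} {φ : ℂ → ℝ} {pr : ℂ → M} {q : Y → P}
    {μ : Measure M} {L : ℝ} {σ : M → M} {N : ℕ} {T : Fin N → Set ℂ} (hU : IsUT Ω φ pr q)
    (hC : Cy0 Ω φ pr L) (hA : IsArea Ω φ pr μ) (hR : Rfl Ω φ pr σ) (hAt : Atl Ω pr L N T)
    (hT : ∀ i, (mkD φ pr N T).T i = T i) :
    ∃ Φ : ℂ → M, (mkD φ pr N T).IsCyl μ L Φ σ ∧ ∀ z ∈ Pool.Agent.Y262.QE.Strip L, Φ z = pr z := by
  have hS1 : ∀ z ∈ Pool.Agent.Y262.QE.Strip L, z ∈ Pool.Agent.Y262.QE.Strip L := fun z hz => hz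
  have hS2 : ∀ z ∈ Pool.Agent.Y262.QE.Strip L, z ∈ Ω := fun z hz => hC.strip (hS1 z hz)
  have hΩM : ∀ x : M, ∃ z ∈ Ω, pr z = x := by
    intro x
    have : x ∈ pr '' Ω := by rw [hU.surjp]; trivial
    exact this
  classical
  set Φ : ℂ → M := fun z => if z ∈ Pool.Agent.Y262.QE.Strip L then pr z else pr (L / 2) with hΦ
  have hΦ1 : ∀ z ∈ Pool.Agent.Y262.QE.Strip L, Φ z = pr z := by
    intro z hz
    simp only [hΦ, if_pos hz]
  have hinv : ∀ x, σ (σ x) = x := by
    intro x
    obtain ⟨z, hz, rfl⟩ := hΩM x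
    rw [hR.rfl' z hz, hR.rfl' _ (hR.maps z hz), Complex.conj_conj]
  have hcont : Continuous σ := by
    rw [continuous_def]
    intro V hV
    have h1 : ContinuousOn (fun z => pr (conj z)) Ω :=
      hU.contp.comp Complex.continuous_conj.continuousOn (fun z hz => hR.maps z hz)
    have h2 : IsOpen (Ω ∩ (fun z => pr (conj z)) ⁻¹' V) := h1.isOpen_inter_preimage hU.opn hV
    have h3 := hU.opnp _ h2 inter_subset_left
    convert h3 using 1
    ext x
    simp only [mem_preimage, mem_image, mem_inter_iff]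
    constructor
    · intro hx
      obtain ⟨z, hz, rfl⟩ := hΩM x
      exact ⟨z, ⟨hz, by rw [← hR.rfl' z hz]; exact hx⟩, rfl⟩
    · rintro ⟨z, ⟨hz, hz2⟩, rfl⟩
      rw [hR.rfl' z hz]; exact hz2
  refine ⟨Φ, ⟨hC.posL, ?_, ?_, ?_, hinv, hcont, ?_, ?_, ?_⟩, hΦ1⟩
  · -- per
    intro z
    have h1 : (z + 2 * π * Complex.I).re = z.re := by simp
    by_cases hz : z ∈ Pool.Agent.Y262.QE.Strip L
    · have hz' : z + 2 * π * Complex.I ∈ Pool.Agent.Y262.QE.Strip L := by
        show 0 < (z + 2 * π * Complex.I).re ∧ (z + 2 * π * Complex.I).re < L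
        rw [h1]; exact hz
      rw [hΦ1 _ hz, hΦ1 _ hz']
      exact hC.per z (hS1 z hz)
    · have hz' : z + 2 * π * Complex.I ∉ Pool.Agent.Y262.QE.Strip L := by
        intro h
        apply hz
        have h2 : 0 < (z + 2 * π * Complex.I).re ∧ (z + 2 * π * Complex.I).re < L := h
        rw [h1] at h2
        exact h2
      simp only [hΦ, if_neg hz, if_neg hz']
  · -- inj
    intro z hz z' hz' h
    rw [hΦ1 _ hz, hΦ1 _ hz'] at h
    exact hC.inj z (hS1 z hz) z' (hS1 z' hz') h
  · -- chart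
    intro b hb
    obtain ⟨i, hi⟩ := hAt.rec' b hb
    refine ⟨i, by rw [hT i, hi], ?_⟩
    intro z hz
    have hz1 : z ∈ Pool.Agent.Y262.QE.Strip L := hz.1
    refine ⟨(hΦ1 z hz1).symm, ?_⟩
    have h0 : φ z = 0 := by
      exact hC.zero z hz1
    show Real.exp (φ z) • ContinuousLinearMap.id ℝ ℂ = _
    rw [h0, Real.exp_zero, one_smul]
  · -- refl
    intro z hz
    have hz' : conj z ∈ Pool.Agent.Y262.QE.Strip L := by
      show 0 < (conj z).re ∧ (conj z).re < L
      rw [Complex.conj_re]; exact hz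
    rw [hΦ1 z hz, hΦ1 _ hz', hR.rfl' z (hS2 z hz)]
  · -- mp
    have hpiece : ∀ i, ∀ S : Set M, MeasurableSet S → S ⊆ pr '' T i → μ (σ ⁻¹' S) = μ S := by
      intro i S hS hSi
      set B : Set ℂ := T i ∩ pr ⁻¹' S with hB
      have hBm : MeasurableSet B := meas_piece (hAt.opn i) (hU.contp.mono (hAt.sub i)) hS
      have hBΩ : B ⊆ Ω := fun z hz => hAt.sub i hz.1
      have hBi : InjOn pr B := (hAt.inj i).mono inter_subset_left
      have hSB : S = pr '' B := by
        ext x
        constructor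
        · intro hx
          obtain ⟨z, hz, rfl⟩ := hSi hx
          exact ⟨z, ⟨hz, hx⟩, rfl⟩
        · rintro ⟨z, hz, rfl⟩
          exact hz.2
      set B' : Set ℂ := conj ⁻¹' B with hB'
      have hB'm : MeasurableSet B' := Complex.continuous_conj.measurable hBm
      have hB'Ω : B' ⊆ Ω := by
        intro z hz
        have := hR.maps _ (hBΩ (show conj z ∈ B from hz))
        rwa [Complex.conj_conj] at this
      have hB'i : InjOn pr B' := by
        intro z hz w hw hzw
        have h1 : pr (conj z) = pr (conj w) := by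
          rw [← hR.rfl' z (hB'Ω hz), ← hR.rfl' w (hB'Ω hw), hzw]
        have h2 := hBi (show conj z ∈ B from hz) (show conj w ∈ B from hw) h1
        have h3 := congrArg conj h2
        rwa [Complex.conj_conj, Complex.conj_conj] at h3
      have hpre : σ ⁻¹' S = pr '' B' := by
        ext x
        simp only [mem_preimage, mem_image]
        constructor
        · intro hx
          rw [hSB] at hx
          obtain ⟨z, hz, hzx⟩ := hx
          refine ⟨conj z, ?_, ?_⟩
          · show conj (conj z) ∈ B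
            rw [Complex.conj_conj]; exact hz
          · rw [← hR.rfl' z (hBΩ hz), hzx, hinv]
        · rintro ⟨z, hz, rfl⟩
          rw [hR.rfl' z (hB'Ω hz), hSB]
          exact ⟨conj z, hz, rfl⟩
      rw [hpre, hA B' hB'm hB'Ω hB'i]
      conv_rhs => rw [hSB, hA B hBm hBΩ hBi]
      rw [hB', lint_conj]
      refine setLIntegral_congr_fun hBm (fun z hz => ?_)
      rw [hR.inv z (hBΩ hz)]
    refine ⟨hcont.measurable, ?_⟩
    ext S hS
    rw [Measure.map_apply hcont.measurable hS]
    -- decomposition in pieces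
    set W : Fin N → Set M := fun i => (S ∩ pr '' T i) \ ⋃ k : {k : Fin N // k < i}, pr '' T k.1
      with hW
    have hopen : ∀ i, IsOpen (pr '' T i) := fun i => hU.opnp _ (hAt.opn i) (hAt.sub i)
    have hWm : ∀ i, MeasurableSet (W i) := by
      intro i
      refine (hS.inter (hopen i).measurableSet).diff ?_
      exact (isOpen_iUnion (fun k : {k : Fin N // k < i} => hopen k.1)).measurableSet
    have hWd : Pairwise (fun i j => Disjoint (W i) (W j)) := by
      have key : ∀ i j : Fin N, i < j → Disjoint (W i) (W j) := by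
        intro i j hij
        rw [Set.disjoint_left]
        intro x hx hx'
        exact hx'.2 (mem_iUnion.mpr ⟨⟨i, hij⟩, hx.1.2⟩)
      intro i j hij
      rcases lt_or_gt_of_ne hij with h | h
      · exact key i j h
      · exact (key j i h).symm
    have hWu : S = ⋃ i, W i := by
      ext x
      constructor
      · intro hx
        have hne : ∃ i, x ∈ pr '' T i := hAt.cov x
        have hmin := WellFounded.has_min (wellFounded_lt : WellFounded (fun a b : Fin N => a < b))
          {i | x ∈ pr '' T i} hne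
        obtain ⟨i, hi, hi'⟩ := hmin
        refine mem_iUnion.mpr ⟨i, ⟨hx, hi⟩, ?_⟩
        intro h
        obtain ⟨k, hk⟩ := mem_iUnion.mp h
        exact hi' k.1 hk k.2
      · intro hx
        obtain ⟨i, hi⟩ := mem_iUnion.mp hx
        exact hi.1.1
    have e1 : μ S = ∑' i, μ (W i) := by
      conv_lhs => rw [hWu]
      exact measure_iUnion hWd hWm
    have e2 : μ (σ ⁻¹' S) = ∑' i, μ (σ ⁻¹' (W i)) := by
      conv_lhs => rw [hWu]
      rw [preimage_iUnion]
      refine measure_iUnion ?_ (fun i => hcont.measurable (hWm i))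
      intro i j hij
      exact (hWd hij).preimage σ
    rw [e1, e2]
    congr 1
    funext i
    exact hpiece i (W i) (hWm i) (fun x hx => hx.1.2)
  · -- iso
    intro (i : Fin N) (j : Fin N) x hx hx'
    have hxi : x ∈ pr '' T i := hx
    have hxj : σ x ∈ pr '' T j := hx'
    show ContDiffAt ℝ 1 (fun z => Function.invFunOn pr (T j) (σ (pr z)))
        (Function.invFunOn pr (T i) x) ∧ ∀ v,
      ‖(Real.exp (φ (Function.invFunOn pr (T j) (σ x))) • ContinuousLinearMap.id ℝ ℂ)
        (fderiv ℝ (fun z => Function.invFunOn pr (T j) (σ (pr z)))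
          (Function.invFunOn pr (T i) x) v)‖ =
        ‖(Real.exp (φ (Function.invFunOn pr (T i) x)) • ContinuousLinearMap.id ℝ ℂ) v‖
    set z0 := Function.invFunOn pr (T i) x with hz0
    set w0 := Function.invFunOn pr (T j) (σ x) with hw0
    have hz0T : z0 ∈ T i := Function.invFunOn_mem hxi
    have hz0p : pr z0 = x := Function.invFunOn_eq hxi
    have hw0T : w0 ∈ T j := Function.invFunOn_mem hxj
    have hw0p : pr w0 = σ x := Function.invFunOn_eq hxj
    have hz0Ω := hAt.sub i hz0T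
    have hw0Ω := hAt.sub j hw0T
    have hpp : pr (conj z0) = pr w0 := by rw [hw0p, ← hR.rfl' z0 hz0Ω, hz0p]
    obtain ⟨θ', r, γ, hr, hball, hγ, hγ0, hγ1, -⟩ :=
      hU.deck (conj z0) (hR.maps z0 hz0Ω) w0 hw0Ω hpp 0
    have hmem : conj z0 ∈ Metric.ball (conj z0) r := Metric.mem_ball_self hr
    have hγd : DifferentiableAt ℂ γ (conj z0) :=
      hγ.differentiableAt (Metric.isOpen_ball.mem_nhds hmem)
    have hγ0' : γ (conj z0) = w0 := hγ0
    have hcd : ContDiffAt ℂ 1 γ (conj z0) :=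
      (hγ.contDiffOn (n := 1) Metric.isOpen_ball).contDiffAt (Metric.isOpen_ball.mem_nhds hmem)
    have hcj : ContDiffAt ℝ 1 (fun z : ℂ => conj z) z0 :=
      (Complex.conjCLE.contDiff (n := 1)).contDiffAt
    have hcd2 : ContDiffAt ℝ 1 (fun z => γ (conj z)) z0 :=
      ContDiffAt.comp z0 (hcd.restrict_scalars ℝ) hcj
    have hev : (fun z => Function.invFunOn pr (T j) (σ (pr z))) =ᶠ[𝓝 z0]
        fun z => γ (conj z) := by
      have c1 : ContinuousAt (fun z : ℂ => conj z) z0 := Complex.continuous_conj.continuousAt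
      have c2 : ContinuousAt (fun z : ℂ => γ (conj z)) z0 :=
        ContinuousAt.comp (f := fun z : ℂ => conj z) (g := γ) hγd.continuousAt c1
      have e1 : ∀ᶠ z in 𝓝 z0, z ∈ Ω := hU.opn.mem_nhds hz0Ω
      have e2 : ∀ᶠ z in 𝓝 z0, conj z ∈ Metric.ball (conj z0) r :=
        c1 (Metric.isOpen_ball.mem_nhds hmem)
      have e3 : ∀ᶠ z in 𝓝 z0, γ (conj z) ∈ T j := by
        apply c2
        show T j ∈ 𝓝 (γ (conj z0))
        rw [hγ0']
        exact (hAt.opn j).mem_nhds hw0T
      filter_upwards [e1, e2, e3] with z h1 h2 h3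
      rw [hR.rfl' z h1, ← (hγ1 (conj z) h2).2.1]
      exact (hAt.inj j).leftInvOn_invFunOn h3
    refine ⟨hcd2.congr_of_eventuallyEq hev, ?_⟩
    intro v
    have hfd : HasFDerivAt (fun z => γ (conj z))
        (((ContinuousLinearMap.toSpanSingleton ℂ (deriv γ (conj z0))).restrictScalars ℝ).comp
          (Complex.conjCLE : ℂ →L[ℝ] ℂ)) z0 := by
      have e1 : HasFDerivAt γ ((ContinuousLinearMap.toSpanSingleton ℂ
          (deriv γ (conj z0))).restrictScalars ℝ) (conj z0) :=
        hγd.hasDerivAt.hasFDerivAt.restrictScalars ℝ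
      have e2 : HasFDerivAt (fun z : ℂ => conj z) (Complex.conjCLE : ℂ →L[ℝ] ℂ) z0 :=
        Complex.conjCLE.hasFDerivAt
      exact HasFDerivAt.comp z0 e1 e2
    rw [hev.fderiv_eq, hfd.fderiv]
    have hkey := (hγ1 _ hmem).2.2
    have hn : 0 < ‖deriv γ (conj z0)‖ := norm_pos_iff.mpr hkey.1
    have hφ : Real.exp (φ w0) * ‖deriv γ (conj z0)‖ = Real.exp (φ z0) := by
      rw [← hR.inv z0 hz0Ω, ← hkey.2, hγ0', Real.exp_add, Real.exp_log hn]
    simp only [smul_apply, ContinuousLinearMap.id_apply,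
      ContinuousLinearMap.comp_apply, ContinuousLinearMap.coe_restrictScalars',
      ContinuousLinearMap.toSpanSingleton_apply, norm_smul, smul_eq_mul, norm_mul,
      Real.norm_eq_abs, Real.abs_exp]
    have hnv : ‖(Complex.conjCLE : ℂ →L[ℝ] ℂ) v‖ = ‖v‖ := by
      simp
    rw [hnv, ← hφ]
    ring

end Pool.Agent.H240.SG
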