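import Pool.Agent.H240.SG.Prof

/-!
# The function for the conformal change
-/

set_option autoImplicit false
set_option linter.unusedSectionVars false

open Set Filter Topology MeasureTheory
open scoped ContDiff ComplexConjugate Real

noncomputable section

namespace Pool.Agent.H240.SG

open Pool.Agent.Y262.EG Pool.Agent.Y262.EX

/-- the function which is `η` in the collar and constant outside -/
def Hf (η : ℝ → ℝ) (c : ℝ) (z : ℂ) : ℝ := by
  classical
  exact if h : ∃ γ : Gq, ac γ z ∈ Stp L0 (3 / 2 * L0) then η (ac h.choose z).re else c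

theorem phi_lin (g η : ℝ → ℝ) (c1 c s : ℝ) (z : ℂ) :
    phi (fun x => g x + s * η x) (c1 + s * c) z = phi g c1 z + s * Hf η c z := by
  unfold phi Hf
  split_ifs with h
  · ring
  · ring

/-- the properties of the function -/
structure HfP (η : ℝ → ℝ) (c : ℝ) : Prop where
  sm : ContDiffOn ℝ ∞ (Hf η c) Om
  inv : ∀ γ : Gq, ∀ z ∈ Om, Hf η c (ac γ z) = Hf η c z
  cj : ∀ z ∈ Om, Hf η c (conj z) = Hf η c z
  strip : ∀ z ∈ Stp L0 (3 / 2 * L0), Hf η c z = η z.re
  out : ∀ z ∈ Om, (∀ γ : Gq, ac γ z ∉ Stp L0 (1 / 2 * L0)) → Hf η c z = c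

theorem hfP {g X : ℝ → ℝ} {c1 C : ℝ} (hP : Prof g c1 C) (hX : Cut X) (c : ℝ) :
    HfP (et g X c) c := by
  obtain ⟨s0, hs0, hs⟩ := prof_var hP hX c
  set s := s0 / 2 with hsd
  have hsp : 0 < s := by positivity
  obtain ⟨C', hP'⟩ := hs s (by rw [abs_of_pos hsp]; linarith)
  have hlin := fun z => phi_lin g (et g X c) c1 c s z
  obtain ⟨a1, a2⟩ := tPhi2 g c1 C hP
  obtain ⟨b1, b2⟩ := tPhi2 _ _ C' hP'
  obtain ⟨p1, p2, p3, -⟩ := tPhi1 g c1 C hP
  obtain ⟨q1, q2, q3, -⟩ := tPhi1 _ _ C' hP'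
  have hH : ∀ z, Hf (et g X c) c z =
      s⁻¹ * (phi (fun x => g x + s * et g X c x) (c1 + s * c) z - phi g c1 z) := by
    intro z
    rw [hlin]
    field_simp
    ring
  refine ⟨?_, ?_, ?_, ?_, ?_⟩
  · have h1 : ContDiffOn ℝ ∞ (fun z =>
        s⁻¹ * (phi (fun x => g x + s * et g X c x) (c1 + s * c) z - phi g c1 z)) Om :=
      contDiffOn_const.mul (b1.1.sub a1.1)
    exact h1.congr fun z _ => hH z
  · intro γ z hz
    rw [hH, hH]
    have h1 := (a1.2 γ z hz).2
    have h2 := (b1.2 γ z hz).2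
    congr 1
    linarith
  · intro z hz
    rw [hH, hH, a2 z hz, b2 z hz]
  · intro z hz
    rw [hH, p2 z hz, q2 z hz]
    field_simp
    ring
  · intro z hz hout
    rw [hH, p3 z hz hout, q3 z hz hout]
    field_simp
    ring

/-- invariant functions descend -/
theorem desc {M : Type} [MetricSpace M] {pr : ℂ → M} (hpr : PrM Om ac pr) {F : ℂ → ℝ}
    (hF : ContinuousOn F Om) (hinv : ∀ γ : Gq, ∀ z ∈ Om, F (ac γ z) = F z) :
    ∃ f : C(M, ℝ), ∀ z ∈ Om, f (pr z) = F z := by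
  have hsur : ∀ x : M, ∃ z ∈ Om, pr z = x := by
    intro x
    have : x ∈ pr '' Om := by rw [hpr.surj]; trivial
    exact this
  choose r hr1 hr2 using hsur
  have hOm : IsOpen Om := tAct.opn
  have hval : ∀ z ∈ Om, F (r (pr z)) = F z := by
    intro z hz
    obtain ⟨γ, hγ⟩ := (hpr.rel z hz (r (pr z)) (hr1 _)).1 (hr2 _).symm
    rw [← hγ, hinv γ z hz]
  have hcont : Continuous fun x => F (r x) := by
    rw [continuous_def]
    intro V hV
    have h1 : IsOpen (Om ∩ F ⁻¹' V) := hF.isOpen_inter_preimage hOm hV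
    have h2 := hpr.opn _ h1 inter_subset_left
    convert h2 using 1
    ext x
    constructor
    · intro hx
      exact ⟨r x, ⟨hr1 x, hx⟩, hr2 x⟩
    · rintro ⟨z, ⟨hz1, hz2⟩, rfl⟩
      show F (r (pr z)) ∈ V
      rw [hval z hz1]
      exact hz2
  exact ⟨⟨fun x => F (r x), hcont⟩, hval⟩

end Pool.Agent.H240.SG
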