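import Pool.Agent.H240.SG.Hfun

/-!
# Translation of the covering
-/

set_option autoImplicit false
set_option linter.unusedSectionVars false

open Set Filter Topology MeasureTheory
open scoped ContDiff ComplexConjugate Real

noncomputable section

namespace Pool.Agent.H240.SG

open Pool.Agent.Y262.EG Pool.Agent.Y262.EX

/-- the translated domain -/
def sO (c : ℝ) (Ω : Set ℂ) : Set ℂ := {z | z - c ∈ Ω}

/-- the translated function -/
def sF {α : Type} (c : ℝ) (f : ℂ → α) (z : ℂ) : α := f (z - c)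

/-- the translated function on the unit vectors -/
def sQ {α : Type} (c : ℝ) (f : Y → α) (p : Y) : α := f (p.1 - c, p.2)

section

variable {M P : Type} {c : ℝ} {Ω : Set ℂ}

theorem sub_ball (c : ℝ) {z w : ℂ} {r : ℝ} (h : w ∈ Metric.ball z r) :
    w - c ∈ Metric.ball (z - c) r := by
  rw [Metric.mem_ball, dist_eq_norm] at h ⊢
  rwa [sub_sub_sub_cancel_right]

theorem sO_open (h : IsOpen Ω) : IsOpen (sO c Ω) := h.preimage (by fun_prop)

theorem img (c : ℝ) (pr : ℂ → M) (O : Set ℂ) :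
    sF c pr '' O = pr '' ((fun z : ℂ => z + c) ⁻¹' O) := by
  ext x
  constructor
  · rintro ⟨z, hz, rfl⟩
    exact ⟨z - c, by simpa using hz, rfl⟩
  · rintro ⟨z, hz, rfl⟩
    exact ⟨z + c, hz, by simp [sF]⟩

theorem imgQ (c : ℝ) (q : Y → P) (O : Set Y) :
    sQ c q '' O = q '' ((fun p : Y => ((p.1 + c, p.2) : Y)) ⁻¹' O) := by
  ext x
  constructor
  · rintro ⟨p, hp, rfl⟩
    refine ⟨(p.1 - c, p.2), ?_, rfl⟩
    show ((p.1 - c + c, p.2) : Y) ∈ O
    rw [sub_add_cancel]
    exact hp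
  · rintro ⟨p, hp, rfl⟩
    refine ⟨(p.1 + c, p.2), hp, ?_⟩
    show q ((p.1 + c - c, p.2) : Y) = q p
    rw [add_sub_cancel_right]

/-- translation of the local isometries -/
theorem germ_sh {φ : ℂ → ℝ} {pr : ℂ → M} {p p' : Y} (h : Germ Ω φ pr (p.1 - c, p.2) (p'.1 - c, p'.2)) :
    Germ (sO c Ω) (sF c φ) (sF c pr) p p' := by
  obtain ⟨r, γ, hr, hb, hd, hγ, hp, he⟩ := h
  have hmap : MapsTo (fun z : ℂ => z - c) (Metric.ball p.1 r) (Metric.ball (p.1 - c) r) :=
    fun z hz => sub_ball c hz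
  have hder : ∀ ζ ∈ Metric.ball p.1 r, HasDerivAt (fun z => γ (z - c) + c) (deriv γ (ζ - c)) ζ := by
    intro ζ hζ
    have h1 : HasDerivAt γ (deriv γ (ζ - c)) (ζ - c) :=
      (hd.differentiableAt (Metric.isOpen_ball.mem_nhds (hmap hζ))).hasDerivAt
    have h2 : HasDerivAt (fun z : ℂ => z - c) 1 ζ := (hasDerivAt_id ζ).sub_const _
    have h3 := (h1.comp ζ h2).add_const (c : ℂ)
    rw [mul_one] at h3
    exact h3
  refine ⟨r, fun z => γ (z - c) + c, hr, ?_, ?_, ?_, ?_, ?_⟩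
  · intro z hz
    exact hb (hmap hz)
  · intro z hz
    exact (hder z hz).differentiableAt.differentiableWithinAt
  · show γ (p.1 - c) + c = p'.1
    have : γ (p.1 - c) = p'.1 - c := hγ
    rw [this, sub_add_cancel]
  · intro ζ hζ
    obtain ⟨g1, g2, g3, g4⟩ := hp (ζ - c) (hmap hζ)
    rw [(hder ζ hζ).deriv]
    refine ⟨?_, ?_, g3, ?_⟩
    · show γ (ζ - c) + c - c ∈ Ω
      rw [add_sub_cancel_right]
      exact g1
    · show pr (γ (ζ - c) + c - c) = pr (ζ - c)
      rw [add_sub_cancel_right]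
      exact g2
    · show φ (γ (ζ - c) + c - c) + Real.log ‖deriv γ (ζ - c)‖ = φ (ζ - c)
      rw [add_sub_cancel_right]
      exact g4
  · rw [(hder p.1 (Metric.mem_ball_self hr)).deriv]
    exact he

theorem germ_sh' {φ : ℂ → ℝ} {pr : ℂ → M} {p p' : Y}
    (h : Germ (sO c Ω) (sF c φ) (sF c pr) p p') : Germ Ω φ pr (p.1 - c, p.2) (p'.1 - c, p'.2) := by
  have e1 : sO (-c) (sO c Ω) = Ω := by
    ext z
    show z - ((-c : ℝ) : ℂ) - c ∈ Ω ↔ z ∈ Ω
    push_cast
    rw [sub_neg_eq_add, add_sub_cancel_right]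
  have e2 : ∀ {α : Type} (f : ℂ → α), sF (-c) (sF c f) = f := by
    intro α f
    funext z
    show f (z - ((-c : ℝ) : ℂ) - c) = f z
    push_cast
    rw [sub_neg_eq_add, add_sub_cancel_right]
  have h1 := germ_sh (c := -c) (Ω := sO c Ω) (φ := sF c φ) (pr := sF c pr)
    (p := (p.1 - c, p.2)) (p' := (p'.1 - c, p'.2)) (by
      have e3 : ∀ p : Y, (((p.1 - c, p.2) : Y).1 - ((-c : ℝ) : ℂ), ((p.1 - c, p.2) : Y).2) = p := by
        intro p
        ext1
        · show p.1 - c - ((-c : ℝ) : ℂ) = p.1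
          push_cast
          rw [sub_neg_eq_add, sub_add_cancel]
        · rfl
      rw [e3, e3]
      exact h)
  rwa [e1, e2, e2] at h1

theorem ut_sh [TopologicalSpace M] [TopologicalSpace P] {φ : ℂ → ℝ} {pr : ℂ → M} {q : Y → P}
    (h : IsUT Ω φ pr q) (c : ℝ) : IsUT (sO c Ω) (sF c φ) (sF c pr) (sQ c q) := by
  have hm : MapsTo (fun z : ℂ => z - c) (sO c Ω) Ω := fun z hz => hz
  have hmY : MapsTo (fun p : Y => ((p.1 - c, p.2) : Y)) (YO (sO c Ω)) (YO Ω) := fun p hp => hp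
  refine ⟨sO_open h.opn, ?_, ?_, ?_, ?_, ?_, ?_, ?_, ?_, ?_, ?_⟩
  · exact h.smooth.comp (by fun_prop) hm
  · exact h.contp.comp (by fun_prop) hm
  · intro O hO hOs
    rw [img]
    refine h.opnp _ (hO.preimage (by fun_prop)) ?_
    intro z hz
    have := hOs hz
    show z ∈ Ω
    have h2 : z + c - c ∈ Ω := this
    rwa [add_sub_cancel_right] at h2
  · rw [img]
    convert h.surjp using 2
    ext z
    show z + c - c ∈ Ω ↔ z ∈ Ω
    rw [add_sub_cancel_right]
  · intro z hz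
    obtain ⟨r, hr, hb, hi⟩ := h.injp (z - c) hz
    refine ⟨r, hr, fun w hw => hb (sub_ball c hw), ?_⟩
    intro w hw w' hw' he
    have := hi (sub_ball c hw) (sub_ball c hw') he
    exact sub_left_inj.1 this
  · exact h.contq.comp (by fun_prop) hmY
  · intro O hO hOs
    rw [imgQ]
    refine h.opnq _ (hO.preimage (by fun_prop)) ?_
    intro p hp
    have h2 : p.1 + c - c ∈ Ω := hOs hp
    rw [add_sub_cancel_right] at h2
    exact h2
  · rw [imgQ]
    convert h.surjq using 2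
    ext p
    show p.1 + c - c ∈ Ω ↔ p.1 ∈ Ω
    rw [add_sub_cancel_right]
  · intro p hp p' hp'
    have h1 := h.rel (p.1 - c, p.2) hp (p'.1 - c, p'.2) hp'
    constructor
    · intro he
      exact germ_sh (h1.1 he)
    · intro he
      exact h1.2 (germ_sh' he)
  · intro z hz w hw he θ
    obtain ⟨θ', hg⟩ := h.deck (z - c) hz (w - c) hw he θ
    exact ⟨θ', germ_sh (p := (z, θ)) (p' := (w, θ')) hg⟩

theorem area_sh [MeasurableSpace M] {φ : ℂ → ℝ} {pr : ℂ → M} {μ : Measure M} (h : IsArea Ω φ pr μ)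
    (c : ℝ) : IsArea (sO c Ω) (sF c φ) (sF c pr) μ := by
  intro B hB hBs hi
  have hm : Measurable fun z : ℂ => z + (c : ℂ) := by fun_prop
  rw [img, h _ (hm hB) (fun z hz => by
    have h2 : z + c - c ∈ Ω := hBs hz
    rwa [add_sub_cancel_right] at h2) (fun z hz w hw he => by
    have h2 : sF c pr (z + c) = sF c pr (w + c) := by
      show pr (z + c - c) = pr (w + c - c)
      rw [add_sub_cancel_right, add_sub_cancel_right]
      exact he
    exact add_right_cancel (hi hz hw h2))]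
  have hmp : MeasurePreserving (fun z : ℂ => z + (c : ℂ)) volume volume :=
    measurePreserving_add_right volume (c : ℂ)
  have hme : MeasurableEmbedding (fun z : ℂ => z + (c : ℂ)) :=
    (Homeomorph.addRight (c : ℂ)).measurableEmbedding
  have h3 := hmp.setLIntegral_comp_preimage_emb hme
    (fun z => ENNReal.ofReal (Real.exp (2 * sF c φ z))) B
  rw [← h3]
  refine lintegral_congr fun z => ?_
  show ENNReal.ofReal (Real.exp (2 * φ z)) = ENNReal.ofReal (Real.exp (2 * φ (z + c - c)))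
  rw [add_sub_cancel_right]

theorem rfl_sh {φ : ℂ → ℝ} {pr : ℂ → M} {σ : M → M} (h : Rfl Ω φ pr σ) (c : ℝ) :
    Rfl (sO c Ω) (sF c φ) (sF c pr) σ := by
  have hc : ∀ z : ℂ, conj z - c = conj (z - c) := by
    intro z
    rw [map_sub, Complex.conj_ofReal]
  refine ⟨fun z hz => ?_, fun z hz => ?_, fun z hz => ?_⟩
  · show conj z - c ∈ Ω
    rw [hc]
    exact h.maps _ hz
  · show φ (conj z - c) = φ (z - c)
    rw [hc]
    exact h.inv _ hz
  · show σ (pr (z - c)) = pr (conj z - c)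
    rw [hc]
    exact h.rfl' _ hz

end

end Pool.Agent.H240.SG
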